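import Pool.Agent.H873JM.Comm



namespace Pool.Agent.H873JM

open Equiv MonoidAlgebra



/-! auxiliary lemmas for `t_color` -/

theorem jma_tau_val {n : ℕ} (p : Fin (2 * n)) :
    (tau n p).val = if p.val % 2 = 0 then p.val + 1 else p.val - 1 := by
  show (partner p).val = _
  unfold partner
  split_ifs <;> rfl

theorem jma_tau_tau {n : ℕ} (p : Fin (2 * n)) : tau n (tau n p) = p := partner_partner p

theorem jma_tau_ne {n : ℕ} (p : Fin (2 * n)) : tau n p ≠ p := by
  intro h
  have h1 := jma_tau_val p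
  rw [h] at h1
  split_ifs at h1 <;> omega

theorem jma_tau_mul {n : ℕ} : tau n * tau n = 1 := by
  ext p
  simp [jma_tau_tau]

theorem jma_mat_mat {n : ℕ} (σ : Sym2 n) (p : Fin (2 * n)) : mat σ (mat σ p) = p := by
  unfold mat
  simp [Perm.mul_apply, jma_tau_tau]

theorem jma_mat_ne {n : ℕ} (σ : Sym2 n) (p : Fin (2 * n)) : mat σ p ≠ p := by
  intro h
  unfold mat at h
  have h2 : tau n (σ⁻¹ p) = σ⁻¹ p := by
    rw [Perm.eq_inv_iff_eq]
    exact h
  exact jma_tau_ne _ h2

open Classical in
/-- colourings -/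
noncomputable def jma_cs {n : ℕ} (M i : ℕ) (τ : Sym2 n) : Finset (Fin (2 * n) → Fin (M + 1)) :=
  Finset.univ.filter fun c => (∀ p, c (tau n p) = c p) ∧ (∀ p, c (τ p) = c p) ∧
    ∀ p : Fin (2 * n), 2 * i ≤ p.val → c p = 0

theorem jma_mem {n M i : ℕ} {τ : Sym2 n} {c : Fin (2 * n) → Fin (M + 1)} :
    c ∈ jma_cs M i τ ↔ (∀ p, c (tau n p) = c p) ∧ (∀ p, c (τ p) = c p) ∧
      ∀ p : Fin (2 * n), 2 * i ≤ p.val → c p = 0 := by
  unfold jma_cs
  simp

/-- agreement from `2 i` on -/
def jma_A {n : ℕ} (i : ℕ) (τ : Sym2 n) : Prop := ∀ p : Fin (2 * n), 2 * i ≤ p.val → τ p = tau n p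

open Classical in
/-- the coefficients -/
noncomputable def jma_Z {n : ℕ} (M i : ℕ) (τ : Sym2 n) : ℕ :=
  if jma_A i τ then (jma_cs M i τ).card else 0

/-- the partial products -/
noncomputable def jma_P (n M : ℕ) : ℕ → MonoidAlgebra ℂ (Sym2 n)
  | 0 => PP n
  | i + 1 => if h : i < n then
      (algebraMap ℂ (MonoidAlgebra ℂ (Sym2 n)) ((M : ℂ) + 1) + Jodd ⟨i, h⟩) * jma_P n M i
    else jma_P n M i

theorem jma_prod (n M : ℕ) : ∀ i (hi : i ≤ n),
    (List.ofFn fun l : Fin i => algebraMap ℂ (MonoidAlgebra ℂ (Sym2 n)) ((M : ℂ) + 1) +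
      Jodd (Fin.castLE hi l)).reverse.prod * PP n = jma_P n M i := by
  intro i
  induction i with
  | zero => intro hi; simp [jma_P]
  | succ i ih =>
    intro hi
    have ih' := ih (by omega)
    rw [List.ofFn_succ']
    rw [List.concat_eq_append, List.reverse_append]
    simp only [List.reverse_cons, List.reverse_nil, List.nil_append, List.singleton_append,
      List.prod_cons, mul_assoc]
    unfold jma_P
    rw [dif_pos (show i < n by omega), ← ih']
    rfl

theorem jma_mat_mul {n : ℕ} (s σ : Sym2 n) : mat (s * σ) = s * mat σ * s⁻¹ := by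
  unfold mat
  rw [mul_inv_rev]
  group

theorem jma_hyp {n : ℕ} {h : Sym2 n} : h ∈ Hyp n ↔ ∀ p, h (tau n p) = tau n (h p) := by
  unfold Hyp
  rw [Subgroup.mem_centralizer_singleton_iff]
  constructor
  · intro hh p
    exact DFunLike.congr_fun hh.symm p |>.symm ▸ rfl
  · intro hh
    ext p
    simp [Perm.mul_apply, hh]

theorem jma_Z_of {n M i : ℕ} {τ : Sym2 n} (h : jma_A i τ) : jma_Z M i τ = (jma_cs M i τ).card := by
  unfold jma_Z
  rw [if_pos h]

theorem jma_Z_not {n M i : ℕ} {τ : Sym2 n} (h : ¬ jma_A i τ) : jma_Z M i τ = 0 := by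
  unfold jma_Z
  rw [if_neg h]

/-- the block of `i` -/
theorem jma_blk {n : ℕ} (i : ℕ) (hi : i < n) (p : Fin (2 * n)) (h1 : 2 * i ≤ p.val)
    (h2 : p.val < 2 * (i + 1)) : p = ev2 ⟨i, hi⟩ ∨ p = tau n (ev2 ⟨i, hi⟩) := by
  have hk : (ev2 (⟨i, hi⟩ : Fin n)).val = 2 * i := rfl
  have hk' : (tau n (ev2 (⟨i, hi⟩ : Fin n))).val = 2 * i + 1 := by
    rw [jma_tau_val, hk, if_pos (by omega)]
  by_cases h : p.val = 2 * i
  · left
    exact Fin.ext (by rw [h, hk])
  · right
    exact Fin.ext (by rw [hk']; omega)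

theorem jma_big {n : ℕ} {i : ℕ} {p : Fin (2 * n)} (h : 2 * i ≤ p.val) : 2 * i ≤ (tau n p).val := by
  rw [jma_tau_val]
  split_ifs <;> omega

theorem jma_small {n : ℕ} {i : ℕ} {p : Fin (2 * n)} (h : p.val < 2 * i) :
    (tau n p).val < 2 * i := by
  rw [jma_tau_val]
  split_ifs <;> omega

/-- step 2a -/
theorem jma_step_a {n M i : ℕ} (hi : i < n) {τ : Sym2 n} (hinv : ∀ p, τ (τ p) = p)
    (hA : jma_A i τ) : (jma_cs M (i + 1) τ).card = (M + 1) * (jma_cs M i τ).card := by
  classical
  have hcard : (M + 1) * (jma_cs M i τ).card =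
      ((Finset.univ : Finset (Fin (M + 1))) ×ˢ jma_cs M i τ).card := by
    rw [Finset.card_product, Finset.card_univ, Fintype.card_fin]
  rw [hcard]
  have hk : (ev2 (⟨i, hi⟩ : Fin n)).val = 2 * i := rfl
  have hsm : ∀ p : Fin (2 * n), p.val < 2 * i → (τ p).val < 2 * i := by
    intro p hp
    by_contra hcon
    have h1 := hA (τ p) (not_lt.1 hcon)
    rw [hinv] at h1
    have := jma_big (not_lt.1 hcon)
    rw [← h1] at this
    omega
  refine Finset.card_nbij' (fun c => (c (ev2 ⟨i, hi⟩), fun p => if p.val < 2 * i then c p else 0))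
    (fun x => fun p => if 2 * i ≤ p.val ∧ p.val < 2 * (i + 1) then x.1 else x.2 p) ?_ ?_ ?_ ?_
  · intro c hc
    obtain ⟨h1, h2, h3⟩ := jma_mem.1 (Finset.mem_coe.1 hc)
    rw [Finset.mem_coe, Finset.mem_product]
    refine ⟨Finset.mem_univ _, jma_mem.2 ⟨?_, ?_, ?_⟩⟩
    · intro p
      show (if (tau n p).val < 2 * i then c (tau n p) else 0) = if p.val < 2 * i then c p else 0
      by_cases hp : p.val < 2 * i
      · rw [if_pos hp, if_pos (jma_small hp), h1]
      · rw [if_neg hp, if_neg (not_lt.2 (jma_big (not_lt.1 hp)))]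
    · intro p
      show (if (τ p).val < 2 * i then c (τ p) else 0) = if p.val < 2 * i then c p else 0
      by_cases hp : p.val < 2 * i
      · rw [if_pos hp, if_pos (hsm p hp), h2]
      · rw [if_neg hp, hA p (not_lt.1 hp), if_neg (not_lt.2 (jma_big (not_lt.1 hp)))]
    · intro p hp
      show (if p.val < 2 * i then c p else 0) = 0
      rw [if_neg (not_lt.2 hp)]
  · intro x hx
    rw [Finset.mem_coe, Finset.mem_product] at hx
    obtain ⟨h1, h2, h3⟩ := jma_mem.1 hx.2
    rw [Finset.mem_coe]
    refine jma_mem.2 ⟨?_, ?_, ?_⟩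
    · intro p
      show (if 2 * i ≤ (tau n p).val ∧ (tau n p).val < 2 * (i + 1) then x.1 else x.2 (tau n p)) =
        if 2 * i ≤ p.val ∧ p.val < 2 * (i + 1) then x.1 else x.2 p
      by_cases hp : 2 * i ≤ p.val ∧ p.val < 2 * (i + 1)
      · rw [if_pos hp, if_pos ⟨jma_big hp.1, jma_small hp.2⟩]
      · have hp' : ¬ (2 * i ≤ (tau n p).val ∧ (tau n p).val < 2 * (i + 1)) := by
          rintro ⟨a, b⟩
          apply hp
          have a' := jma_big a
          have b' := jma_small b
          rw [jma_tau_tau] at a' b'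
          exact ⟨a', b'⟩
        rw [if_neg hp, if_neg hp', h1]
    · intro p
      show (if 2 * i ≤ (τ p).val ∧ (τ p).val < 2 * (i + 1) then x.1 else x.2 (τ p)) =
        if 2 * i ≤ p.val ∧ p.val < 2 * (i + 1) then x.1 else x.2 p
      by_cases hp0 : p.val < 2 * i
      · have := hsm p hp0
        rw [if_neg (by omega), if_neg (by omega), h2]
      · have hp0' := not_lt.1 hp0
        rw [hA p hp0']
        by_cases hp : p.val < 2 * (i + 1)
        · rw [if_pos ⟨jma_big hp0', jma_small hp⟩, if_pos ⟨hp0', hp⟩]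
        · have hq : 2 * (i + 1) ≤ (tau n p).val := jma_big (not_lt.1 hp)
          rw [if_neg (by omega), if_neg (by omega), h1]
    · intro p hp
      show (if 2 * i ≤ p.val ∧ p.val < 2 * (i + 1) then x.1 else x.2 p) = 0
      rw [if_neg (by omega)]
      exact h3 p (by omega)
  · intro c hc
    obtain ⟨h1, h2, h3⟩ := jma_mem.1 (Finset.mem_coe.1 hc)
    funext p
    show (if 2 * i ≤ p.val ∧ p.val < 2 * (i + 1) then c (ev2 ⟨i, hi⟩) else
      if p.val < 2 * i then c p else 0) = c p
    by_cases hp : 2 * i ≤ p.val ∧ p.val < 2 * (i + 1)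
    · rw [if_pos hp]
      rcases jma_blk i hi p hp.1 hp.2 with h | h
      · rw [h]
      · rw [h, h1]
    · rw [if_neg hp]
      by_cases hp0 : p.val < 2 * i
      · rw [if_pos hp0]
      · rw [if_neg hp0, h3 p (by omega)]
  · intro x hx
    rw [Finset.mem_coe, Finset.mem_product] at hx
    obtain ⟨h1, h2, h3⟩ := jma_mem.1 hx.2
    apply Prod.ext
    · show (if 2 * i ≤ (ev2 (⟨i, hi⟩ : Fin n)).val ∧ (ev2 (⟨i, hi⟩ : Fin n)).val < 2 * (i + 1) then
        x.1 else x.2 (ev2 ⟨i, hi⟩)) = x.1
      rw [if_pos (by rw [hk]; omega)]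
    · funext p
      show (if p.val < 2 * i then
        (if 2 * i ≤ p.val ∧ p.val < 2 * (i + 1) then x.1 else x.2 p) else 0) = x.2 p
      by_cases hp0 : p.val < 2 * i
      · rw [if_pos hp0, if_neg (by omega)]
      · rw [if_neg hp0, h3 p (not_lt.1 hp0)]

/-- step 2b -/
theorem jma_step_b {n M i : ℕ} (hi : i < n) {τ : Sym2 n} (hinv : ∀ p, τ (τ p) = p)
    (hne : ∀ p, τ p ≠ p) (hA : jma_A (i + 1) τ) (j : Fin (2 * n)) (hj : j.val < 2 * i)
    (hτ : τ (tau n (ev2 ⟨i, hi⟩)) = j) :
    jma_Z M i (swap j (ev2 ⟨i, hi⟩) * τ * (swap j (ev2 ⟨i, hi⟩))⁻¹) = (jma_cs M (i + 1) τ).card := by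
  classical
  set k : Fin (2 * n) := ev2 ⟨i, hi⟩ with hkdef
  set k' : Fin (2 * n) := tau n k with hk'def
  have hk : k.val = 2 * i := rfl
  have hk' : k'.val = 2 * i + 1 := by
    rw [hk'def, jma_tau_val, hk, if_pos (by omega)]
  have htk' : tau n k' = k := jma_tau_tau k
  have hjk : j ≠ k := by intro h; rw [h] at hj; omega
  have hjk' : j ≠ k' := by intro h; rw [h] at hj; omega
  have hkk' : k ≠ k' := by intro h; rw [← h] at hk'; omega
  have hτj : τ j = k' := by rw [← hτ, hinv]
  set r := τ k with hr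
  have hτr : τ r = k := hinv k
  have hrk : r ≠ k := hne k
  have hrk' : r ≠ k' := by
    intro h
    rw [h, hτ] at hτr
    exact hjk hτr
  have hrj : r ≠ j := by
    intro h
    rw [h, hτj] at hτr
    exact hkk' hτr.symm
  have hbig : ∀ p : Fin (2 * n), 2 * (i + 1) ≤ p.val → 2 * (i + 1) ≤ (τ p).val := by
    intro p hp
    rw [hA p hp]
    exact jma_big hp
  have hsm : ∀ p : Fin (2 * n), p.val < 2 * (i + 1) → (τ p).val < 2 * (i + 1) := by
    intro p hp
    by_contra hcon
    have := hbig _ (not_lt.1 hcon)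
    rw [hinv] at this
    have h2 := hbig _ (not_lt.1 hcon)
    rw [hinv] at h2
    omega
  have hr2 : r.val < 2 * i := by
    have h1 := hsm k (by omega)
    by_contra hcon
    rcases jma_blk i hi r (not_lt.1 hcon) h1 with h | h
    · exact hrk h
    · exact hrk' h
  set τ' : Sym2 n := swap j k * τ * (swap j k)⁻¹ with hτ'
  have hτ'app : ∀ p, τ' p = swap j k (τ (swap j k p)) := by
    intro p
    rw [hτ', swap_inv]
    rfl
  have e_k : τ' k = k' := by
    rw [hτ'app, swap_apply_right, hτj, swap_apply_of_ne_of_ne hjk'.symm hkk'.symm]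
  have e_k' : τ' k' = k := by
    rw [hτ'app, swap_apply_of_ne_of_ne hjk'.symm hkk'.symm, hτ, swap_apply_left]
  have e_j : τ' j = r := by
    rw [hτ'app, swap_apply_left, swap_apply_of_ne_of_ne hrj hrk]
  have e_r : τ' r = j := by
    rw [hτ'app, swap_apply_of_ne_of_ne hrj hrk, hτr, swap_apply_right]
  have e_o : ∀ p, p ≠ k → p ≠ k' → p ≠ j → p ≠ r → τ' p = τ p := by
    intro p h1 h2 h3 h4
    have h5 : τ p ≠ j := by
      intro h
      apply h2
      rw [← hinv p, h, hτj]
    have h6 : τ p ≠ k := by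
      intro h
      apply h4
      rw [← hinv p, h]
    rw [hτ'app, swap_apply_of_ne_of_ne h3 h1, swap_apply_of_ne_of_ne h5 h6]
  have e_o2 : ∀ p, p ≠ k → p ≠ k' → p ≠ j → p ≠ r → τ p ≠ k ∧ τ p ≠ k' := by
    intro p h1 h2 h3 h4
    constructor
    · intro h
      apply h4
      rw [← hinv p, h]
    · intro h
      apply h3
      rw [← hinv p, h, hτ]
  have hA' : jma_A i τ' := by
    intro p hp
    by_cases hp1 : p.val < 2 * (i + 1)
    · rcases jma_blk i hi p hp hp1 with h | h
      · rw [h]
        exact e_k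
      · have h' : p = k' := h
        rw [h', e_k', htk']
    · have hp2 := not_lt.1 hp1
      rw [e_o p (by intro h; rw [h] at hp2; omega) (by intro h; rw [h] at hp2; omega)
        (by intro h; rw [h] at hp2; omega) (by intro h; rw [h] at hp2; omega)]
      exact hA p hp2
  rw [jma_Z_of hA']
  have hblk : ∀ p : Fin (2 * n), (2 * i ≤ p.val ∧ p.val < 2 * (i + 1)) ↔ (p = k ∨ p = k') := by
    intro p
    constructor
    · rintro ⟨h1, h2⟩
      exact jma_blk i hi p h1 h2
    · rintro (h | h)
      · rw [h]; omega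
      · rw [h]; omega
  have htb : ∀ p : Fin (2 * n), (tau n p = k ∨ tau n p = k') ↔ (p = k ∨ p = k') := by
    intro p
    constructor
    · rintro (h | h)
      · right; rw [← jma_tau_tau p, h]
      · left; rw [← jma_tau_tau p, h, htk']
    · rintro (h | h)
      · right; rw [h]
      · left; rw [h, htk']
  refine Finset.card_nbij' (fun c => fun p => if p = k ∨ p = k' then c j else c p)
    (fun c => fun p => if p = k ∨ p = k' then 0 else c p) ?_ ?_ ?_ ?_
  · intro c hc
    obtain ⟨h1, h2, h3⟩ := jma_mem.1 (Finset.mem_coe.1 hc)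
    rw [Finset.mem_coe]
    refine jma_mem.2 ⟨?_, ?_, ?_⟩
    · intro p
      show (if tau n p = k ∨ tau n p = k' then c j else c (tau n p)) =
        if p = k ∨ p = k' then c j else c p
      by_cases hp : p = k ∨ p = k'
      · rw [if_pos hp, if_pos ((htb p).2 hp)]
      · rw [if_neg hp, if_neg (fun h => hp ((htb p).1 h)), h1]
    · intro p
      show (if τ p = k ∨ τ p = k' then c j else c (τ p)) = if p = k ∨ p = k' then c j else c p
      by_cases hpk : p = k
      · rw [hpk, ← hr, if_neg (by rintro (h | h); exacts [hrk h, hrk' h]), if_pos (Or.inl rfl),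
          ← e_j, h2]
      · by_cases hpk' : p = k'
        · rw [hpk', hτ, if_neg (by rintro (h | h); exacts [hjk h, hjk' h]), if_pos (Or.inr rfl)]
        · rw [if_neg (show ¬ (p = k ∨ p = k') by rintro (h | h); exacts [hpk h, hpk' h])]
          by_cases hpj : p = j
          · rw [hpj, hτj, if_pos (Or.inr rfl)]
          · by_cases hpr : p = r
            · rw [hpr, hτr, if_pos (Or.inl rfl), ← e_j, h2]
            · have := e_o2 p hpk hpk' hpj hpr
              rw [if_neg (by rintro (h | h); exacts [this.1 h, this.2 h]), ← e_o p hpk hpk' hpj hpr,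
                h2]
    · intro p hp
      show (if p = k ∨ p = k' then c j else c p) = 0
      rw [if_neg (by
        intro h
        have := (hblk p).2 h
        omega)]
      exact h3 p (by omega)
  · intro c hc
    obtain ⟨h1, h2, h3⟩ := jma_mem.1 (Finset.mem_coe.1 hc)
    rw [Finset.mem_coe]
    have hcr : c r = c j := by
      rw [hr, h2, ← hτ, h2, hk'def, h1]
    refine jma_mem.2 ⟨?_, ?_, ?_⟩
    · intro p
      show (if tau n p = k ∨ tau n p = k' then 0 else c (tau n p)) =
        if p = k ∨ p = k' then 0 else c p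
      by_cases hp : p = k ∨ p = k'
      · rw [if_pos hp, if_pos ((htb p).2 hp)]
      · rw [if_neg hp, if_neg (fun h => hp ((htb p).1 h)), h1]
    · intro p
      show (if τ' p = k ∨ τ' p = k' then 0 else c (τ' p)) = if p = k ∨ p = k' then 0 else c p
      by_cases hpk : p = k
      · rw [hpk, e_k, if_pos (Or.inr rfl), if_pos (Or.inl rfl)]
      · by_cases hpk' : p = k'
        · rw [hpk', e_k', if_pos (Or.inl rfl), if_pos (Or.inr rfl)]
        · rw [if_neg (show ¬ (p = k ∨ p = k') by rintro (h | h); exacts [hpk h, hpk' h])]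
          by_cases hpj : p = j
          · rw [hpj, e_j, if_neg (by rintro (h | h); exacts [hrk h, hrk' h]), hcr]
          · by_cases hpr : p = r
            · rw [hpr, e_r, if_neg (by rintro (h | h); exacts [hjk h, hjk' h]), hcr]
            · have := e_o2 p hpk hpk' hpj hpr
              rw [e_o p hpk hpk' hpj hpr, if_neg (by rintro (h | h); exacts [this.1 h, this.2 h]), h2]
    · intro p hp
      show (if p = k ∨ p = k' then 0 else c p) = 0
      by_cases hp1 : p = k ∨ p = k'
      · rw [if_pos hp1]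
      · rw [if_neg hp1]
        apply h3
        by_contra hcon
        exact hp1 ((hblk p).1 ⟨hp, not_le.1 hcon⟩)
  · intro c hc
    obtain ⟨h1, h2, h3⟩ := jma_mem.1 (Finset.mem_coe.1 hc)
    funext p
    show (if p = k ∨ p = k' then 0 else if p = k ∨ p = k' then c j else c p) = c p
    by_cases hp : p = k ∨ p = k'
    · rw [if_pos hp, h3 p ((hblk p).2 hp).1]
    · rw [if_neg hp, if_neg hp]
  · intro c hc
    obtain ⟨h1, h2, h3⟩ := jma_mem.1 (Finset.mem_coe.1 hc)
    funext p
    show (if p = k ∨ p = k' then (if j = k ∨ j = k' then 0 else c j) else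
      if p = k ∨ p = k' then 0 else c p) = c p
    rw [if_neg (show ¬ (j = k ∨ j = k') by rintro (h | h); exacts [hjk h, hjk' h])]
    have hcj : c k' = c j := by rw [← h2, hτ]
    have hck : c k = c j := by rw [← hcj, hk'def, h1]
    by_cases hp : p = k ∨ p = k'
    · rw [if_pos hp]
      rcases hp with h | h
      · rw [h, hck]
      · rw [h, hcj]
    · rw [if_neg hp, if_neg hp]

theorem jma_step {n M i : ℕ} (hi : i < n) (σ : Sym2 n) :
    jma_Z M (i + 1) (mat σ) = (M + 1) * jma_Z M i (mat σ) +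
      ∑ j ∈ Finset.univ.filter (· < ev2 (⟨i, hi⟩ : Fin n)),
        jma_Z M i (mat (swap j (ev2 ⟨i, hi⟩) * σ)) := by
  classical
  set k : Fin (2 * n) := ev2 ⟨i, hi⟩ with hkdef
  set τ := mat σ with hτdef
  have hinv : ∀ p, τ (τ p) = p := jma_mat_mat σ
  have hne : ∀ p, τ p ≠ p := jma_mat_ne σ
  set k' : Fin (2 * n) := tau n k with hk'def
  have hk : k.val = 2 * i := rfl
  have hk' : k'.val = 2 * i + 1 := by
    rw [hk'def, jma_tau_val, hk, if_pos (by omega)]
  have htk' : tau n k' = k := jma_tau_tau k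
  have hkk' : k ≠ k' := by intro h; rw [← h] at hk'; omega
  simp only [jma_mat_mul, ← hτdef]
  have happ : ∀ j p, (swap j k * τ * (swap j k)⁻¹ : Sym2 n) p = swap j k (τ (swap j k p)) := by
    intro j p
    rw [swap_inv]
    rfl
  by_cases hA : jma_A (i + 1) τ
  · rw [jma_Z_of hA]
    have hbig : ∀ p : Fin (2 * n), 2 * (i + 1) ≤ p.val → 2 * (i + 1) ≤ (τ p).val := by
      intro p hp
      rw [hA p hp]
      exact jma_big hp
    have hsm : ∀ p : Fin (2 * n), p.val < 2 * (i + 1) → (τ p).val < 2 * (i + 1) := by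
      intro p hp
      by_contra hcon
      have h2 := hbig _ (not_lt.1 hcon)
      rw [hinv] at h2
      omega
    have hq := hsm k' (by omega)
    by_cases hq2 : 2 * i ≤ (τ k').val
    · -- case 2a
      have hqk : τ k' = k := by
        rcases jma_blk i hi _ hq2 hq with h | h
        · exact h
        · exact absurd h (hne k')
      have hAi : jma_A i τ := by
        intro p hp
        by_cases hp1 : p.val < 2 * (i + 1)
        · rcases jma_blk i hi p hp hp1 with h | h
          · have h' : p = k := h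
            rw [h', ← hqk, hinv, hqk]
          · have h' : p = k' := h
            rw [h', hqk, htk']
        · exact hA p (not_lt.1 hp1)
      rw [jma_Z_of hAi, jma_step_a hi hinv hAi]
      have : ∑ j ∈ Finset.univ.filter (· < k), jma_Z M i (swap j k * τ * (swap j k)⁻¹) = 0 := by
        apply Finset.sum_eq_zero
        intro j hj
        have hj' : j < k := (Finset.mem_filter.1 hj).2
        have hjk : j ≠ k := ne_of_lt hj'
        have hjk' : j ≠ k' := by
          intro h
          have : j.val < k.val := hj'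
          rw [h] at this
          omega
        apply jma_Z_not
        intro hcon
        have h1 := hcon k' (by omega)
        rw [happ, swap_apply_of_ne_of_ne hjk'.symm hkk'.symm, hqk, swap_apply_right, htk'] at h1
        exact hjk h1
      rw [this, add_zero]
    · -- case 2b
      have hq3 := not_le.1 hq2
      have hAi : ¬ jma_A i τ := by
        intro hcon
        have h1 := hcon k' (by omega)
        rw [htk'] at h1
        rw [h1] at hq3
        omega
      rw [jma_Z_not hAi, mul_zero, zero_add]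
      have hmem : τ k' ∈ Finset.univ.filter (· < k) := by
        rw [Finset.mem_filter]
        refine ⟨Finset.mem_univ _, ?_⟩
        show (τ k').val < k.val
        omega
      rw [Finset.sum_eq_single_of_mem (τ k') hmem]
      · exact (jma_step_b hi hinv hne hA (τ k') hq3 rfl).symm
      · intro j hj hjne
        have hj' : j < k := (Finset.mem_filter.1 hj).2
        have hjk : j ≠ k := ne_of_lt hj'
        have hjk' : j ≠ k' := by
          intro h
          have : j.val < k.val := hj'
          rw [h] at this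
          omega
        apply jma_Z_not
        intro hcon
        have h1 := hcon k' (by omega)
        have hqk : τ k' ≠ k := by
          intro h
          rw [h] at hq3
          omega
        rw [happ, swap_apply_of_ne_of_ne hjk'.symm hkk'.symm,
          swap_apply_of_ne_of_ne hjne.symm hqk, htk'] at h1
        exact hqk h1
  · -- case 1
    have hA' := hA
    unfold jma_A at hA'
    push Not at hA'
    obtain ⟨p, hp, hpne⟩ := hA'
    rw [jma_Z_not hA]
    have hAi : ¬ jma_A i τ := by
      intro hcon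
      exact hpne (hcon p (by omega))
    rw [jma_Z_not hAi, mul_zero, zero_add]
    symm
    apply Finset.sum_eq_zero
    intro j hj
    have hj' : j < k := (Finset.mem_filter.1 hj).2
    have hj2 : j.val < k.val := hj'
    apply jma_Z_not
    intro hcon
    have h1 := hcon p (by omega)
    have hpj : p ≠ j := by intro h; rw [h] at hp; omega
    have hpk : p ≠ k := by intro h; rw [h] at hp; omega
    have hb := jma_big hp
    have htj : tau n p ≠ j := by intro h; rw [h] at hb; omega
    have htk : tau n p ≠ k := by intro h; rw [h] at hb; omega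
    rw [happ, swap_apply_of_ne_of_ne hpj hpk] at h1
    apply hpne
    have h2 := congrArg (swap j k) h1
    rw [swap_apply_self, swap_apply_of_ne_of_ne htj htk] at h2
    exact h2

theorem jma_mat_hyp {n : ℕ} (σ : Sym2 n) : (∀ p, mat σ p = tau n p) ↔ σ ∈ Hyp n := by
  rw [jma_hyp]
  unfold mat
  constructor
  · intro h p
    have := h (σ p)
    simpa [Perm.mul_apply] using this
  · intro h p
    have := h (σ⁻¹ p)
    simpa [Perm.mul_apply] using this

theorem jma_coeff (n M : ℕ) : ∀ i, i ≤ n → ∀ σ : Sym2 n,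
    (jma_P n M i).coeff σ = (jma_Z M i (mat σ) : ℂ) := by
  classical
  intro i
  induction i with
  | zero =>
    intro _ σ
    show (PP n).coeff σ = _
    have h1 : (PP n).coeff σ = if σ ∈ Hyp n then 1 else 0 := by
      unfold PP
      rw [MonoidAlgebra.coeff_sum, Finsupp.finsetSum_apply]
      simp only [MonoidAlgebra.of_apply, MonoidAlgebra.coeff_single_apply]
      rw [Finset.sum_ite_eq' ]
      simp
    rw [h1]
    by_cases h : σ ∈ Hyp n
    · have hA : jma_A 0 (mat σ) := fun p _ => (jma_mat_hyp σ).2 h p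
      rw [if_pos h, jma_Z_of hA]
      have : jma_cs M 0 (mat σ) = {fun _ => 0} := by
        ext c
        rw [jma_mem, Finset.mem_singleton]
        constructor
        · rintro ⟨_, _, h3⟩
          funext p
          exact h3 p (by omega)
        · rintro rfl
          exact ⟨fun _ => rfl, fun _ => rfl, fun _ _ => rfl⟩
      rw [this]
      simp
    · have hA : ¬ jma_A 0 (mat σ) := fun hcon => h ((jma_mat_hyp σ).1 fun p => hcon p (by omega))
      rw [if_neg h, jma_Z_not hA]
      simp
  | succ i ih =>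
    intro hi σ
    have hi' : i < n := hi
    have ih' := ih (by omega)
    unfold jma_P
    rw [dif_pos hi', add_mul, MonoidAlgebra.coeff_add, Finsupp.add_apply, jma_step hi' σ,
      Nat.cast_add, Nat.cast_mul, Nat.cast_sum, Nat.cast_add, Nat.cast_one]
    congr 1
    · rw [← Algebra.smul_def, MonoidAlgebra.coeff_smul, Finsupp.smul_apply, ih', smul_eq_mul]
    · unfold Jodd JM
      rw [Finset.sum_mul, MonoidAlgebra.coeff_sum, Finsupp.finsetSum_apply]
      apply Finset.sum_congr rfl
      intro j _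
      rw [MonoidAlgebra.of_apply, MonoidAlgebra.coeff_single_mul_apply, one_mul, swap_inv, ih']

theorem jma_inv {n M : ℕ} {h : Sym2 n} (hh : h ∈ Hyp n) (τ : Sym2 n) :
    (jma_cs M n (h * τ * h⁻¹)).card = (jma_cs M n τ).card := by
  classical
  have hc := jma_hyp.1 hh
  have hc' : ∀ p, h⁻¹ (tau n p) = tau n (h⁻¹ p) := by
    intro p
    rw [Perm.inv_eq_iff_eq, hc]
    simp
  refine Finset.card_nbij' (fun c => fun p => c (h p)) (fun c => fun p => c (h⁻¹ p)) ?_ ?_ ?_ ?_
  · intro c hcs
    obtain ⟨h1, h2, h3⟩ := jma_mem.1 (Finset.mem_coe.1 hcs)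
    rw [Finset.mem_coe]
    refine jma_mem.2 ⟨?_, ?_, ?_⟩
    · intro p
      show c (h (tau n p)) = c (h p)
      rw [hc, h1]
    · intro p
      show c (h (τ p)) = c (h p)
      have := h2 (h p)
      simpa [Perm.mul_apply] using this
    · intro p hp
      have := p.2
      omega
  · intro c hcs
    obtain ⟨h1, h2, h3⟩ := jma_mem.1 (Finset.mem_coe.1 hcs)
    rw [Finset.mem_coe]
    refine jma_mem.2 ⟨?_, ?_, ?_⟩
    · intro p
      show c (h⁻¹ (tau n p)) = c (h⁻¹ p)
      rw [hc', h1]
    · intro p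
      show c (h⁻¹ ((h * τ * h⁻¹) p)) = c (h⁻¹ p)
      have := h2 (h⁻¹ p)
      simpa [Perm.mul_apply] using this
    · intro p hp
      have := p.2
      omega
  · intro c _
    funext p
    simp
  · intro c _
    funext p
    simp

/- TARGET. Left invariance under `Hyp n` of `∏ (N + J_{2i})  P_n`, `N = M + 1`.

Proof. For `i ≤ n` and `σ` let `Z i σ` be the number of colourings `c : Fin (2n) → Fin (M+1)` with `c ∘ tau = c`,
`c ∘ mat σ = c` (recall `mat σ = σ tau σ⁻¹`), `c p = 0` for all `p ≥ 2i`, if `mat σ p = tau p` for all `p ≥ 2i`, and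
`Z i σ = 0` otherwise.  Claim: for `i ≤ n`, `(∏_{l<i} (N + J_{2l})) * PP n = ∑_σ (Z i σ) σ` (all factors commute, or avoid
this by multiplying new factors from the LEFT: prove the claim for the product in decreasing order and then reorder with
`t_comm`).
 i = 0: `Z 0 σ = 1` if `mat σ = tau`, i.e. `σ ∈ Hyp n`, else `0`.
 Step: the coefficient at `σ` of `(N + J_{2i}) * ∑ (Z i ρ) ρ` is `N * Z i σ + ∑_{j<2i} Z i (s_j σ)`, `s_j = (j 2i)`, and
 `mat (s_j σ) = s_j (mat σ) s_j`. Put `τ = mat σ`.
  - If `τ p ≠ tau p` for some `p ≥ 2i+2`, everything is `0` (`s_j` fixes `p` and `tau p`).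
  - Otherwise let `q = τ (2i+1)`, so `q ≤ 2i`. If `q = 2i` then `τ` agrees with `tau` on `p ≥ 2i`; the terms
    `Z i (s_j σ)` vanish since `s_j τ s_j (2i+1) = j ≠ 2i`; and `Z (i+1) σ = N * Z i σ` (the colour of the block
    `{2i,2i+1}` is free).
  - If `q = j0 < 2i`: `Z i σ = 0`, only `j = j0` contributes (`s_j τ s_j (2i+1) = s_j j0` must be `2i`), and colourings for
    `τ' = s τ s`, zero on `p ≥ 2i`, correspond to colourings `c~` for `τ`, zero on `p ≥ 2i+2`: `c~` is `c` with the block
    `{2i,2i+1}` coloured by `c j0` (`τ` exchanges `j0` with `2i+1`, and `2i` with `τ' j0`; `τ' j0 = τ (2i)`).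
 Finally `Z n σ` is the number of `c` with `c ∘ tau = c`, `c ∘ mat σ = c`; it is invariant under `σ ↦ σ k`, `k ∈ Hyp n`
 (`mat (σ k) = mat σ`), and under `σ ↦ h σ`, `h ∈ Hyp n` (`mat (h σ) = h mat σ h⁻¹`; substitute `c ↦ c ∘ h`). -/
theorem t_color (n M : ℕ) :
    (List.ofFn fun i : Fin n =>
      algebraMap ℂ (MonoidAlgebra ℂ (Sym2 n)) ((M : ℂ) + 1) + Jodd i).prod * PP n ∈ Hecke n := by
  have hcomm : (List.ofFn fun i : Fin n =>
      algebraMap ℂ (MonoidAlgebra ℂ (Sym2 n)) ((M : ℂ) + 1) + Jodd i).prod =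
      (List.ofFn fun i : Fin n =>
      algebraMap ℂ (MonoidAlgebra ℂ (Sym2 n)) ((M : ℂ) + 1) + Jodd i).reverse.prod := by
    apply List.Perm.prod_eq' (List.reverse_perm _).symm
    rw [List.pairwise_iff_get]
    intro a b _
    rw [List.get_ofFn, List.get_ofFn]
    apply Commute.add_left
    · exact Algebra.commutes _ _
    · apply Commute.add_right
      · exact (Algebra.commutes _ _).symm
      · exact t_comm _ _
  rw [hcomm]
  have hP := jma_prod n M n le_rfl
  have hfun : (fun l : Fin n => algebraMap ℂ (MonoidAlgebra ℂ (Sym2 n)) ((M : ℂ) + 1) +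
      Jodd (Fin.castLE le_rfl l)) = fun i : Fin n =>
      algebraMap ℂ (MonoidAlgebra ℂ (Sym2 n)) ((M : ℂ) + 1) + Jodd i := rfl
  rw [hfun] at hP
  rw [hP]
  intro h hh k hk σ
  rw [jma_coeff n M n le_rfl, jma_coeff n M n le_rfl]
  have hA : ∀ τ : Sym2 n, jma_A n τ := by
    intro τ p hp
    have := p.2
    omega
  rw [jma_Z_of (hA _), jma_Z_of (hA _)]
  have hm : mat (h * σ * k) = h * mat σ * h⁻¹ := by
    have h1 : mat k = tau n := by
      ext p
      rw [(jma_mat_hyp k).2 hk p]
    rw [mul_assoc, jma_mat_mul, jma_mat_mul, h1]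
    rfl
  rw [hm, jma_inv hh]

end Pool.Agent.H873JM
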