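import Pool.Agent.H873JM.Defs

namespace Pool.Agent.H873JM

open Equiv MonoidAlgebra

theorem conj_JM {n : ℕ} {k : Fin (2 * n)} (g : Sym2 n) (hk : g k = k)
    (hlt : ∀ j, g j < k ↔ j < k) :
    MonoidAlgebra.of ℂ (Sym2 n) g * JM k = JM k * MonoidAlgebra.of ℂ (Sym2 n) g := by
  unfold JM
  rw [Finset.mul_sum, Finset.sum_mul]
  refine Finset.sum_bij' (fun j _ => g j) (fun j _ => g.symm j) ?_ ?_ ?_ ?_ ?_
  · intro j hj
    simp only [Finset.mem_filter, Finset.mem_univ, true_and] at hj ⊢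
    exact (hlt j).mpr hj
  · intro j hj
    simp only [Finset.mem_filter, Finset.mem_univ, true_and] at hj ⊢
    rw [← hlt]
    simpa using hj
  · intro j _; simp
  · intro j _; simp
  · intro j _
    rw [← map_mul, ← map_mul]
    congr 1
    ext x
    simp only [Perm.mul_apply]
    have := Equiv.swap_apply_apply g j k
    rw [hk] at this
    rw [this]
    simp

theorem comm_JM {n : ℕ} {k l : Fin (2 * n)} (h : k < l) : Commute (JM k) (JM l) := by
  have e1 : JM k = ∑ j ∈ Finset.univ.filter (· < k), MonoidAlgebra.of ℂ (Sym2 n) (swap j k) := rfl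
  change JM k * JM l = JM l * JM k
  rw [e1, Finset.sum_mul, Finset.mul_sum]
  refine Finset.sum_congr rfl fun a ha => ?_
  simp only [Finset.mem_filter, Finset.mem_univ, true_and] at ha
  refine conj_JM _ ?_ ?_
  · exact Equiv.swap_apply_of_ne_of_ne (ne_of_gt (ha.trans h)) (ne_of_gt h)
  · intro j
    by_cases h1 : j = a
    · rw [h1, Equiv.swap_apply_left]; exact ⟨fun _ => ha.trans h, fun _ => h⟩
    · by_cases h2 : j = k
      · rw [h2, Equiv.swap_apply_right]; exact ⟨fun _ => h, fun _ => ha.trans h⟩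
      · rw [Equiv.swap_apply_of_ne_of_ne h1 h2]

theorem t_comm {n : ℕ} (i j : Fin n) : Commute (Jodd i) (Jodd j) := by
  rcases lt_trichotomy i j with h | h | h
  · exact comm_JM (by simp only [ev2, Fin.lt_def]; have := Fin.lt_def.mp h; omega)
  · subst h; exact Commute.refl _
  · exact (comm_JM (by simp only [ev2, Fin.lt_def]; have := Fin.lt_def.mp h; omega)).symm

theorem t_evJ (n : ℕ) : ∃ φ : MvPolynomial (Fin n) ℂ →ₐ[ℂ] MonoidAlgebra ℂ (Sym2 n),
    (∀ f, φ f = evJ f) ∧ ∀ i, φ (MvPolynomial.X i) = Jodd i := by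
  let S : Set (MonoidAlgebra ℂ (Sym2 n)) := Set.range (fun i : Fin n => Jodd i)
  have hc : ∀ a ∈ S, ∀ b ∈ S, a * b = b * a := by
    rintro _ ⟨i, rfl⟩ _ ⟨j, rfl⟩
    exact t_comm i j
  let _ : CommRing (Algebra.adjoin ℂ S) := Algebra.adjoinCommRingOfComm ℂ hc
  let ψ : MvPolynomial (Fin n) ℂ →ₐ[ℂ] Algebra.adjoin ℂ S :=
    MvPolynomial.aeval (fun i => (⟨Jodd i, Algebra.subset_adjoin ⟨i, rfl⟩⟩ : Algebra.adjoin ℂ S))
  refine ⟨(Algebra.adjoin ℂ S).val.comp ψ, ?_, ?_⟩
  · intro f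
    have h1 : ψ f = ∑ d ∈ f.support, f.coeff d • (List.ofFn fun i =>
        (⟨Jodd i, Algebra.subset_adjoin ⟨i, rfl⟩⟩ : Algebra.adjoin ℂ S) ^ d i).prod := by
      simp only [ψ]
      rw [MvPolynomial.aeval_def, MvPolynomial.eval₂_eq']
      refine Finset.sum_congr rfl fun d _ => ?_
      rw [List.prod_ofFn, Algebra.smul_def]
    change (Algebra.adjoin ℂ S).val (ψ f) = _
    rw [h1, map_sum]
    unfold evJ
    refine Finset.sum_congr rfl fun d _ => ?_
    rw [map_smul, map_list_prod, List.map_ofFn]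
    rfl
  · intro i
    change (Algebra.adjoin ℂ S).val (ψ (MvPolynomial.X i)) = _
    simp only [ψ, MvPolynomial.aeval_X]
    rfl

end Pool.Agent.H873JM
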