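import Pool.Agent.H873JM.Defs



namespace Pool.Agent.H873JM

open Equiv MonoidAlgebra



theorem tau_apply' {n : ℕ} (p : Fin (2 * n)) : tau n p = partner p := rfl

theorem tau_tau' {n : ℕ} (p : Fin (2 * n)) : tau n (tau n p) = p := partner_partner p

theorem tau_ne' {n : ℕ} (p : Fin (2 * n)) : tau n p ≠ p := by
  rw [tau_apply']
  unfold partner
  intro h
  split_ifs at h with h1
  · have := congrArg Fin.val h
    simp at this
  · have := congrArg Fin.val h
    simp only at this
    omega

theorem blk_tau' {n : ℕ} (p : Fin (2 * n)) : blk (tau n p) = blk p := by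
  rw [tau_apply']
  unfold partner blk
  split_ifs with h1 <;> (apply Fin.ext; simp only; omega)

theorem blk_eq' {n : ℕ} {p q : Fin (2 * n)} : blk p = blk q ↔ q = p ∨ q = tau n p := by
  constructor
  · intro h
    have h1 : p.val / 2 = q.val / 2 := congrArg Fin.val h
    rw [tau_apply']
    unfold partner
    by_cases h2 : q.val = p.val
    · left; exact Fin.ext h2
    · right
      split_ifs with h3 <;> (apply Fin.ext; simp only; omega)
  · rintro (h | h)
    · rw [h]
    · rw [h, blk_tau']

theorem mem_hyp' {n : ℕ} {h : Sym2 n} : h ∈ Hyp n ↔ h * tau n = tau n * h := by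
  unfold Hyp
  rw [Subgroup.mem_centralizer_singleton_iff]

theorem hyp_tau' {n : ℕ} {h : Sym2 n} (hh : h ∈ Hyp n) (p : Fin (2 * n)) :
    h (tau n p) = tau n (h p) := by
  have := mem_hyp'.1 hh
  exact congrArg (fun f : Sym2 n => f p) this

theorem hyp_blk' {n : ℕ} {h : Sym2 n} (hh : h ∈ Hyp n) {p q : Fin (2 * n)} :
    blk (h p) = blk (h q) ↔ blk p = blk q := by
  rw [blk_eq', blk_eq', ← hyp_tau' hh, h.injective.eq_iff, h.injective.eq_iff]

/-- an element of `Hyp n` which maps `x` to `y` and fixes the points of the other blocks -/
theorem move' {n : ℕ} (x y : Fin (2 * n)) : ∃ g ∈ Hyp n, g x = y ∧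
    ∀ p, blk p ≠ blk x → blk p ≠ blk y → g p = p := by
  by_cases h1 : x = y
  · subst h1
    exact ⟨1, one_mem _, rfl, fun p _ _ => rfl⟩
  by_cases h2 : x = tau n y
  · refine ⟨swap x y, ?_, swap_apply_left x y, ?_⟩
    · rw [mem_hyp']
      have h3 : tau n * swap x y = swap (tau n x) (tau n y) * tau n := mul_swap_eq_swap_mul _ _ _
      rw [h3]
      have h4 : tau n x = y := by rw [h2, tau_tau']
      rw [h4, ← h2, swap_comm y x]
    · intro p hx hy
      apply swap_apply_of_ne_of_ne
      · rintro rfl; exact hx rfl
      · rintro rfl; exact hy rfl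
  · have hxx : x ≠ tau n x := (tau_ne' x).symm
    have hyy : y ≠ tau n y := (tau_ne' y).symm
    have hyx : y ≠ tau n x := by
      intro h; apply h2; rw [h, tau_tau']
    have ht : tau n x ≠ tau n y := fun h => h1 ((tau n).injective h)
    refine ⟨swap x y * swap (tau n x) (tau n y), ?_, ?_, ?_⟩
    · rw [mem_hyp']
      have h3 : tau n * swap x y = swap (tau n x) (tau n y) * tau n := mul_swap_eq_swap_mul _ _ _
      have h4 : tau n * swap (tau n x) (tau n y) = swap x y * tau n := by
        rw [mul_swap_eq_swap_mul, tau_tau', tau_tau']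
      have hd : Perm.Disjoint (swap x y) (swap (tau n x) (tau n y)) := by
        apply Perm.disjoint_swap_swap
        simp [h1, h2, hxx, hyy, hyx, ht]
      have hc : swap x y * swap (tau n x) (tau n y) = swap (tau n x) (tau n y) * swap x y :=
        hd.commute
      calc swap x y * swap (tau n x) (tau n y) * tau n
          = swap (tau n x) (tau n y) * (swap x y * tau n) := by rw [hc, mul_assoc]
        _ = swap (tau n x) (tau n y) * (tau n * swap (tau n x) (tau n y)) := by rw [h4]
        _ = (tau n * swap x y) * swap (tau n x) (tau n y) := by rw [h3, mul_assoc]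
        _ = tau n * (swap x y * swap (tau n x) (tau n y)) := by rw [mul_assoc]
    · rw [Perm.mul_apply, swap_apply_of_ne_of_ne hxx h2, swap_apply_left]
    · intro p hx hy
      have e1 : p ≠ tau n x := by rintro rfl; exact hx (blk_tau' x)
      have e2 : p ≠ tau n y := by rintro rfl; exact hy (blk_tau' y)
      have e3 : p ≠ x := by rintro rfl; exact hx rfl
      have e4 : p ≠ y := by rintro rfl; exact hy rfl
      rw [Perm.mul_apply, swap_apply_of_ne_of_ne e1 e2, swap_apply_of_ne_of_ne e3 e4]

theorem star_conj' {n : ℕ} (h : Sym2 n) (c : Fin (2 * n)) (L : List (Fin (2 * n))) :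
    ((L.map h).map fun q => swap q (h c)).prod = h * (L.map fun q => swap q c).prod * h⁻¹ := by
  induction L with
  | nil => simp
  | cons a T ih =>
    simp only [List.map_cons, List.prod_cons]
    rw [ih]
    have h1 : swap (h a) (h c) = h * swap a c * h⁻¹ := by
      rw [mul_swap_eq_swap_mul, mul_assoc, mul_inv_cancel, mul_one]
    rw [h1]
    group

theorem word_conj' {n : ℕ} (h : Sym2 n) (s : List (Fin (2 * n) × List (Fin (2 * n)))) :
    ∀ s' : List (Fin (2 * n) × List (Fin (2 * n))), shape s = shape s' →
    pts s' = (pts s).map h → word s' = h * word s * h⁻¹ := by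
  induction s with
  | nil =>
    intro s' h1 _
    cases s' with
    | nil => simp [word]
    | cons t s' => simp [shape] at h1
  | cons t s ih =>
    intro s' h1 h2
    cases s' with
    | nil => simp [shape] at h1
    | cons t' s' =>
      obtain ⟨c, L⟩ := t
      obtain ⟨c', L'⟩ := t'
      simp only [shape, List.map_cons, List.cons.injEq] at h1
      obtain ⟨hl, hs⟩ := h1
      simp only [pts, List.flatMap_cons, List.cons_append, List.map_cons, List.map_append,
        List.cons.injEq] at h2
      obtain ⟨hc, hL⟩ := h2
      have h3 := List.append_inj hL (by rw [List.length_map, hl])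
      obtain ⟨hL1, hL2⟩ := h3
      have h4 := ih s' hs hL2
      have e1 : word ((c', L') :: s') = (L'.map fun q => swap q c').prod * word s' := by
        simp [word]
      have e2 : word ((c, L) :: s) = (L.map fun q => swap q c).prod * word s := by
        simp [word]
      rw [e1, e2, h4, hL1, hc, star_conj']
      group

/- TARGET 1. The group `Hyp n` acts transitively on lists of points in different blocks.

Proof. Induction on the list: let `h` do it for the tails, `a` the head of `L`, `a'` the head of `L'`, `a'' = h a`. The
blocks of `a'` and of `a''` are different from the blocks of the points of the tail `L'` (`h` commutes with `tau`, so it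
maps blocks to blocks). Let `g = 1` if `a'' = a'`; `g = swap a'' a'` if `a'' = tau a'`; otherwise
`g = swap a'' a' * swap (tau a'') (tau a')`. Then `g` commutes with `tau` (conjugating `swap x y` by `tau` gives
`swap (tau x) (tau y)`), `g a'' = a'`, and `g` fixes all points of the tail of `L'`. Take `g * h`.

TARGET 2. Follows from 1 for `L = pts s`, `L' = pts s'`: since the shapes agree, `s' = s.map (h-image)`, and
`h * swap q c * h⁻¹ = swap (h q) (h c)`. -/
theorem t_trans {n : ℕ} (L L' : List (Fin (2 * n))) (hl : L.length = L'.length)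
    (h1 : (L.map blk).Nodup) (h2 : (L'.map blk).Nodup) : ∃ h ∈ Hyp n, L' = L.map h := by
  induction L generalizing L' with
  | nil =>
    cases L' with
    | nil => exact ⟨1, one_mem _, rfl⟩
    | cons a' T' => simp at hl
  | cons a T ih =>
    cases L' with
    | nil => simp at hl
    | cons a' T' =>
      rw [List.map_cons, List.nodup_cons] at h1 h2
      obtain ⟨h, hh, hT⟩ := ih T' (by simpa using hl) h1.2 h2.2
      obtain ⟨g, hg, hga, hgp⟩ := move' (h a) a'
      refine ⟨g * h, mul_mem hg hh, ?_⟩
      have h3 : ∀ p ∈ T', g p = p := by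
        intro p hp
        apply hgp
        · intro hb
          rw [hT, List.mem_map] at hp
          obtain ⟨q, hq, rfl⟩ := hp
          rw [hyp_blk' hh] at hb
          exact h1.1 (List.mem_map.2 ⟨q, hq, hb⟩)
        · intro hb
          exact h2.1 (List.mem_map.2 ⟨p, hp, hb⟩)
      rw [List.map_cons, Perm.mul_apply, hga]
      congr 1
      have h4 : T.map (g * h : Sym2 n) = T'.map g := by
        rw [hT, List.map_map]
        rfl
      rw [h4]
      conv_lhs => rw [← List.map_id T']
      exact List.map_congr_left fun p hp => (h3 p hp).symm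

theorem t_conj {n : ℕ} (s s' : List (Fin (2 * n) × List (Fin (2 * n)))) (hs : Proper s)
    (hs' : Proper s') (h : shape s = shape s') :
    ∃ h ∈ Hyp n, word s' = h * word s * h⁻¹ := by
  have hlen : ∀ s : List (Fin (2 * n) × List (Fin (2 * n))),
      (pts s).length = ((shape s).map (· + 1)).sum := by
    intro s
    induction s with
    | nil => rfl
    | cons t s ih =>
      simp only [pts, shape, List.flatMap_cons, List.length_append, List.length_cons,
        List.map_cons, List.sum_cons] at ih ⊢
      rw [ih]
  obtain ⟨g, hg, hp⟩ := t_trans (pts s) (pts s') (by rw [hlen, hlen, h]) hs hs'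
  exact ⟨g, hg, word_conj' g s s' h hp⟩

end Pool.Agent.H873JM
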