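import Mathlib

/-!
Odd Jucys-Murphy elements and the Hecke algebra of the Gelfand pair `(S_{2n}, H_n)`: definitions.

Points are `0, …, 2 n - 1` (one less than in the usual notation); the pairs are `{2 i, 2 i + 1}`.
-/

namespace Pool.Agent.H873JM

open Equiv MonoidAlgebra

/-- the symmetric group on `2 n` points `0, …, 2 n - 1` -/
abbrev Sym2 (n : ℕ) := Perm (Fin (2 * n))

/-- the partner of the point `p`: `2 i ↔ 2 i + 1` -/
def partner {n : ℕ} (p : Fin (2 * n)) : Fin (2 * n) :=
  if h : p.val % 2 = 0 then ⟨p.val + 1, by omega⟩ else ⟨p.val - 1, by omega⟩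

theorem partner_partner {n : ℕ} (p : Fin (2 * n)) : partner (partner p) = p := by
  unfold partner
  by_cases h : p.val % 2 = 0
  · have h2 : ¬ (p.val + 1) % 2 = 0 := by omega
    simp [h, h2]
  · have h2 : (p.val - 1) % 2 = 0 := by omega
    simp only [h, dif_neg, not_false_iff, h2, dif_pos]
    apply Fin.ext
    simp only
    omega

/-- the fixed-point-free involution `(1 2)(3 4)⋯(2n-1 2n)` -/
def tau (n : ℕ) : Sym2 n := ⟨partner, partner, partner_partner, partner_partner⟩

/-- the hyperoctahedral group: the centraliser of `tau n` -/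
def Hyp (n : ℕ) : Subgroup (Sym2 n) := Subgroup.centralizer {tau n}

/-- the Jucys-Murphy element of the point `k`: the sum of the transpositions `(j k)`, `j < k` -/
noncomputable def JM {n : ℕ} (k : Fin (2 * n)) : MonoidAlgebra ℂ (Sym2 n) :=
  ∑ j ∈ Finset.univ.filter (· < k), MonoidAlgebra.of ℂ (Sym2 n) (swap j k)

/-- the point `2 i` (in one-based notation the point `2 i - 1`, `i = 1, …, n`) -/
def ev2 {n : ℕ} (i : Fin n) : Fin (2 * n) := ⟨2 * i.val, by omega⟩

/-- the odd Jucys-Murphy elements (`J_1, J_3, …, J_{2n-1}` in one-based notation) -/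
noncomputable def Jodd {n : ℕ} (i : Fin n) : MonoidAlgebra ℂ (Sym2 n) := JM (ev2 i)

open Classical in
/-- `P_n`: the sum of the elements of the hyperoctahedral group -/
noncomputable def PP (n : ℕ) : MonoidAlgebra ℂ (Sym2 n) :=
  ∑ h ∈ Finset.univ.filter (· ∈ Hyp n), MonoidAlgebra.of ℂ (Sym2 n) h

/-- the Hecke algebra of `(S_{2n}, H_n)`: elements of the group algebra whose coefficients are
constant on the double cosets of `H_n` -/
def Hecke (n : ℕ) : Submodule ℂ (MonoidAlgebra ℂ (Sym2 n)) where
  carrier := {a | ∀ h ∈ Hyp n, ∀ k ∈ Hyp n, ∀ σ : Sym2 n, a.coeff (h * σ * k) = a.coeff σ}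
  add_mem' := by
    intro a b ha hb h hh k hk σ
    rw [MonoidAlgebra.coeff_add, Finsupp.add_apply, Finsupp.add_apply, ha h hh k hk σ,
      hb h hh k hk σ]
  zero_mem' := by intro h _ k _ σ; rfl
  smul_mem' := by
    intro c a ha h hh k hk σ
    rw [MonoidAlgebra.coeff_smul, Finsupp.smul_apply, Finsupp.smul_apply, ha h hh k hk σ]

/-- evaluation of a polynomial at the (commuting) odd Jucys-Murphy elements: in each monomial the
factors are multiplied in increasing order -/
noncomputable def evJ {n : ℕ} (f : MvPolynomial (Fin n) ℂ) : MonoidAlgebra ℂ (Sym2 n) :=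
  ∑ d ∈ f.support, f.coeff d • (List.ofFn fun i => Jodd i ^ d i).prod

/-- the block `{2 i, 2 i + 1}` of a point -/
def blk {n : ℕ} (p : Fin (2 * n)) : Fin n := ⟨p.val / 2, by omega⟩

/-- the matching of `σ`: the conjugate of `tau n` by `σ` -/
def mat {n : ℕ} (σ : Sym2 n) : Sym2 n := σ * tau n * σ⁻¹

/-- the number of blocks which are not pairs of the matching of `σ` -/
def msize {n : ℕ} (σ : Sym2 n) : ℕ :=
  (Finset.univ.filter fun i : Fin n => mat σ (ev2 i) ≠ tau n (ev2 i)).card

/-- the word of a list of stars `(c, L)`: the product of the products of the transpositions `(q c)`,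
`q ∈ L` -/
def word {n : ℕ} (s : List (Fin (2 * n) × List (Fin (2 * n)))) : Sym2 n :=
  (s.map fun t => (t.2.map fun q => swap q t.1).prod).prod

/-- the points of a list of stars -/
def pts {n : ℕ} (s : List (Fin (2 * n) × List (Fin (2 * n)))) : List (Fin (2 * n)) :=
  s.flatMap fun t => t.1 :: t.2

/-- the lengths of the stars -/
def shape {n : ℕ} (s : List (Fin (2 * n) × List (Fin (2 * n)))) : List ℕ :=
  s.map fun t => t.2.length

/-- all the points lie in different blocks -/
def Proper {n : ℕ} (s : List (Fin (2 * n) × List (Fin (2 * n)))) : Prop :=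
  ((pts s).map blk).Nodup

/-- the set of the elements of a group with nonzero coefficient -/
def supp {G : Type*} (a : MonoidAlgebra ℕ G) : Set G := {g | a.coeff g ≠ 0}

/-- the odd Jucys-Murphy elements over `ℕ` -/
noncomputable def JN {n : ℕ} (i : Fin n) : MonoidAlgebra ℕ (Sym2 n) :=
  ∑ j ∈ Finset.univ.filter (· < ev2 i), MonoidAlgebra.of ℕ (Sym2 n) (swap j (ev2 i))

/-- products of power sums of the odd Jucys-Murphy elements over `ℕ` -/
noncomputable def pN {n : ℕ} (ν : List ℕ) : MonoidAlgebra ℕ (Sym2 n) :=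
  (ν.map fun r => ∑ i : Fin n, JN i ^ r).prod

end Pool.Agent.H873JM
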