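import Pool.Agent.H873JM.Comm
import Pool.Agent.H873JM.Color



namespace Pool.Agent.H873JM

open Equiv MonoidAlgebra





section aux

variable {n : ℕ}

theorem inc_mem_iff (a : MonoidAlgebra ℂ (Sym2 n)) :
    a ∈ Hecke n ↔ (∀ h ∈ Hyp n, MonoidAlgebra.of ℂ (Sym2 n) h * a = a) ∧
      (∀ k ∈ Hyp n, a * MonoidAlgebra.of ℂ (Sym2 n) k = a) := by
  constructor
  · intro ha
    have ha' : ∀ h ∈ Hyp n, ∀ k ∈ Hyp n, ∀ σ : Sym2 n, a.coeff (h * σ * k) = a.coeff σ := ha
    refine ⟨fun h hh => ?_, fun k hk => ?_⟩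
    · apply MonoidAlgebra.ext
      ext σ
      rw [MonoidAlgebra.of_apply]
      have h1 := ha' h⁻¹ (Subgroup.inv_mem _ hh) 1 (Subgroup.one_mem _) σ
      rw [mul_one] at h1
      have h2 : σ = h * (h⁻¹ * σ) := by group
      conv_lhs => rw [h2]
      rw [MonoidAlgebra.coeff_single_mul_mul, one_mul, h1]
    · apply MonoidAlgebra.ext
      ext σ
      rw [MonoidAlgebra.of_apply]
      have h1 := ha' 1 (Subgroup.one_mem _) k⁻¹ (Subgroup.inv_mem _ hk) σ
      rw [one_mul] at h1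
      have h2 : σ = (σ * k⁻¹) * k := by group
      conv_lhs => rw [h2]
      rw [MonoidAlgebra.coeff_mul_single_mul, mul_one, h1]
  · rintro ⟨h1, h2⟩
    show ∀ h ∈ Hyp n, ∀ k ∈ Hyp n, ∀ σ : Sym2 n, a.coeff (h * σ * k) = a.coeff σ
    intro h hh k hk σ
    have e1 : a.coeff (h * σ * k) = a.coeff (h * σ) := by
      conv_lhs => rw [← h2 k hk]
      rw [MonoidAlgebra.of_apply, MonoidAlgebra.coeff_mul_single_mul, mul_one]
    have e2 : a.coeff (h * σ) = a.coeff σ := by
      conv_lhs => rw [← h1 h hh]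
      rw [MonoidAlgebra.of_apply, MonoidAlgebra.coeff_single_mul_mul, one_mul]
    rw [e1, e2]

theorem inc_mul {a b : MonoidAlgebra ℂ (Sym2 n)} (ha : a ∈ Hecke n) (hb : b ∈ Hecke n) :
    a * b ∈ Hecke n := by
  rw [inc_mem_iff] at ha hb ⊢
  refine ⟨fun h hh => ?_, fun k hk => ?_⟩
  · rw [← mul_assoc, ha.1 h hh]
  · rw [mul_assoc, hb.2 k hk]

open Classical in
theorem inc_PP_mul {b : MonoidAlgebra ℂ (Sym2 n)} (hb : b ∈ Hecke n) :
    PP n * b = (((Finset.univ.filter (· ∈ Hyp n) : Finset (Sym2 n)).card : ℕ) : ℂ) • b := by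
  rw [inc_mem_iff] at hb
  rw [PP, Finset.sum_mul, Finset.sum_congr rfl (fun h hh => hb.1 h (Finset.mem_filter.1 hh).2),
    Finset.sum_const, Nat.cast_smul_eq_nsmul]

theorem inc_step {x b : MonoidAlgebra ℂ (Sym2 n)} (hx : x * PP n ∈ Hecke n) (hb : b ∈ Hecke n) :
    x * b ∈ Hecke n := by
  classical
  have h1 : x * PP n * b ∈ Hecke n := inc_mul hx hb
  rw [mul_assoc, inc_PP_mul hb, mul_smul_comm] at h1
  have hc : (((Finset.univ.filter (· ∈ Hyp n) : Finset (Sym2 n)).card : ℕ) : ℂ) ≠ 0 := by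
    have : 0 < (Finset.univ.filter (· ∈ Hyp n) : Finset (Sym2 n)).card :=
      Finset.card_pos.2 ⟨1, Finset.mem_filter.2 ⟨Finset.mem_univ _, Subgroup.one_mem _⟩⟩
    exact_mod_cast this.ne'
  exact (Submodule.smul_mem_iff _ hc).1 h1

theorem inc_PP_mem : PP n ∈ Hecke n := by
  classical
  rw [inc_mem_iff]
  refine ⟨fun h hh => ?_, fun k hk => ?_⟩
  · rw [PP, Finset.mul_sum]
    refine Finset.sum_bij' (fun g _ => h * g) (fun g _ => h⁻¹ * g) ?_ ?_ ?_ ?_ ?_
    · intro g hg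
      exact Finset.mem_filter.2 ⟨Finset.mem_univ _, Subgroup.mul_mem _ hh (Finset.mem_filter.1 hg).2⟩
    · intro g hg
      exact Finset.mem_filter.2 ⟨Finset.mem_univ _, Subgroup.mul_mem _ (Subgroup.inv_mem _ hh)
        (Finset.mem_filter.1 hg).2⟩
    · intro g _; simp
    · intro g _; simp
    · intro g _; rw [← map_mul]
  · rw [PP, Finset.sum_mul]
    refine Finset.sum_bij' (fun g _ => g * k) (fun g _ => g * k⁻¹) ?_ ?_ ?_ ?_ ?_
    · intro g hg
      exact Finset.mem_filter.2 ⟨Finset.mem_univ _, Subgroup.mul_mem _ (Finset.mem_filter.1 hg).2 hk⟩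
    · intro g hg
      exact Finset.mem_filter.2 ⟨Finset.mem_univ _, Subgroup.mul_mem _ (Finset.mem_filter.1 hg).2
        (Subgroup.inv_mem _ hk)⟩
    · intro g _; simp
    · intro g _; simp
    · intro g _; rw [← map_mul]

/-- a polynomial family of elements lying in the Hecke algebra for all positive integers has its
coefficients in the Hecke algebra -/
theorem inc_poly (v : ℕ → MonoidAlgebra ℂ (Sym2 n))
    (h : ∀ M : ℕ, ∑ j ∈ Finset.range (n + 1), ((M : ℂ) + 1) ^ (n - j) • v j ∈ Hecke n) :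
    ∀ j, j ≤ n → v j ∈ Hecke n := by
  intro j hj
  show ∀ h ∈ Hyp n, ∀ k ∈ Hyp n, ∀ σ : Sym2 n, (v j).coeff (h * σ * k) = (v j).coeff σ
  intro g hg k hk σ
  set P : Polynomial ℂ := ∑ j ∈ Finset.range (n + 1),
    Polynomial.C ((v j).coeff (g * σ * k) - (v j).coeff σ) * Polynomial.X ^ (n - j) with hP
  have hroot : ∀ M : ℕ, P.IsRoot ((M : ℂ) + 1) := by
    intro M
    have h1 : (∑ j ∈ Finset.range (n + 1), ((M : ℂ) + 1) ^ (n - j) • v j).coeff (g * σ * k) =
        (∑ j ∈ Finset.range (n + 1), ((M : ℂ) + 1) ^ (n - j) • v j).coeff σ := h M g hg k hk σ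
    rw [MonoidAlgebra.coeff_sum, Finsupp.finsetSum_apply, Finsupp.finsetSum_apply,
      ← sub_eq_zero, ← Finset.sum_sub_distrib] at h1
    rw [Polynomial.IsRoot.def, hP, Polynomial.eval_finsetSum, ← h1]
    refine Finset.sum_congr rfl fun i _ => ?_
    rw [Polynomial.eval_mul, Polynomial.eval_C, Polynomial.eval_pow, Polynomial.eval_X,
      MonoidAlgebra.coeff_smul, Finsupp.smul_apply, Finsupp.smul_apply, smul_eq_mul, smul_eq_mul]
    ring
  have hP0 : P = 0 := by
    apply Polynomial.eq_zero_of_infinite_isRoot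
    have hinj : Function.Injective (fun M : ℕ => ((M : ℂ) + 1)) := by
      intro a b hab
      have : (a : ℂ) = b := by simpa using hab
      exact_mod_cast this
    exact (Set.infinite_range_of_injective hinj).mono (by rintro _ ⟨M, rfl⟩; exact hroot M)
  have hc : P.coeff (n - j) = (v j).coeff (g * σ * k) - (v j).coeff σ := by
    rw [hP, Polynomial.finsetSum_coeff, Finset.sum_eq_single j]
    · rw [Polynomial.coeff_C_mul, Polynomial.coeff_X_pow_self, mul_one]
    · intro i hi hij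
      rw [Polynomial.coeff_C_mul, Polynomial.coeff_X_pow, if_neg, mul_zero]
      intro h2
      have := Finset.mem_range.1 hi
      omega
    · intro h2
      exact absurd (Finset.mem_range.2 (by omega)) h2
  rw [hP0, Polynomial.coeff_zero] at hc
  exact (sub_eq_zero.1 hc.symm)

theorem inc_esymm (φ : MvPolynomial (Fin n) ℂ →ₐ[ℂ] MonoidAlgebra ℂ (Sym2 n))
    (hφ : ∀ i, φ (MvPolynomial.X i) = Jodd i) (j : ℕ) (hj : j ≤ n) :
    φ (MvPolynomial.esymm (Fin n) ℂ j) * PP n ∈ Hecke n := by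
  refine inc_poly (fun j => φ (MvPolynomial.esymm (Fin n) ℂ j) * PP n) (fun M => ?_) j hj
  have h1 := t_color n M
  have h2 : (List.ofFn fun i : Fin n =>
      algebraMap ℂ (MonoidAlgebra ℂ (Sym2 n)) ((M : ℂ) + 1) + Jodd i).prod =
      φ (∏ i : Fin n, (MvPolynomial.C ((M : ℂ) + 1) + MvPolynomial.X i)) := by
    rw [← List.prod_ofFn, map_list_prod, List.map_ofFn]
    congr 2
    funext i
    rw [Function.comp_apply, map_add φ, hφ]
    congr 1
    exact (φ.commutes _).symm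
  have h3 : (∏ i : Fin n, (MvPolynomial.C ((M : ℂ) + 1) + MvPolynomial.X i)) =
      ∑ j ∈ Finset.range (n + 1), ((M : ℂ) + 1) ^ (n - j) • MvPolynomial.esymm (Fin n) ℂ j := by
    have h4 := congrArg (Polynomial.eval (MvPolynomial.C ((M : ℂ) + 1)))
      (MvPolynomial.prod_C_add_X_eq_sum_esymm ℂ (Fin n))
    rw [Polynomial.eval_prod, Polynomial.eval_finsetSum, Fintype.card_fin] at h4
    simp only [Polynomial.eval_add, Polynomial.eval_X, Polynomial.eval_C, Polynomial.eval_mul,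
      Polynomial.eval_pow] at h4
    rw [h4]
    refine Finset.sum_congr rfl fun i _ => ?_
    rw [← map_pow, mul_comm, MvPolynomial.C_mul']
  rw [h2, h3, map_sum, Finset.sum_mul] at h1
  simp only [map_smul, smul_mul_assoc] at h1
  exact h1

theorem inc_all (φ : MvPolynomial (Fin n) ℂ →ₐ[ℂ] MonoidAlgebra ℂ (Sym2 n))
    (hφ : ∀ i, φ (MvPolynomial.X i) = Jodd i) (q : MvPolynomial (Fin n) ℂ) :
    ∀ b ∈ Hecke n, φ (MvPolynomial.aeval
      (fun i : Fin n => MvPolynomial.esymm (Fin n) ℂ (i + 1)) q) * b ∈ Hecke n := by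
  induction q using MvPolynomial.induction_on with
  | C a =>
    intro b hb
    rw [MvPolynomial.aeval_C, AlgHom.commutes, ← Algebra.smul_def]
    exact Submodule.smul_mem _ _ hb
  | add p q hp hq =>
    intro b hb
    rw [map_add, map_add, add_mul]
    exact Submodule.add_mem _ (hp b hb) (hq b hb)
  | mul_X p i hp =>
    intro b hb
    rw [map_mul, map_mul, mul_assoc, MvPolynomial.aeval_X]
    exact hp _ (inc_step (inc_esymm φ hφ _ (by omega)) hb)

end aux

/- TARGET. For symmetric `f`, `f(J) P_n` lies in `Hecke n`.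

Proof. (1) `a ∈ Hecke n` iff `of h * a = a` and `a * of h = a` for all `h ∈ Hyp n`. Hence if `A, B ∈ Hecke n` then
 `A * B ∈ Hecke n`; and `PP n * B = |Hyp n| • B` for `B ∈ Hecke n`.
 (2) Let `φ` be as in `t_evJ`. With `N = M + 1`: `∏_i (N + J_i) = φ (∏_i (C N + X i)) = ∑_k N^(n-k) • φ (esymm k)` (Mathlib:
 `MvPolynomial.prod_C_add_X_eq_sum_esymm` or similar, `Finset.prod_X_add_C...`, or `MvPolynomial.prod_X_add_C_coeff`). So for
 all `h, k ∈ Hyp n`, `σ`, the polynomial in `N` with coefficients `(φ (esymm k) * PP n)(hσk) - (φ (esymm k) * PP n)(σ)`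
 vanishes at all `N = 1, 2, 3, …`, hence is zero: `φ (esymm k) * PP n ∈ Hecke n` for every `k`.
 (3) For `B ∈ Hecke n`: `φ (esymm k) * B = |Hyp n|⁻¹ • φ (esymm k) * (PP n * B) ∈ Hecke n` by (1), (2).
 (4) Every symmetric `f` is a polynomial in `esymm 1, …, esymm n` (Mathlib: `MvPolynomial.esymmAlgHom_surjective` /
 `esymmAlgEquiv`); by induction on this polynomial, `φ f * B ∈ Hecke n` for every `B ∈ Hecke n`. Take `B = PP n`. -/
theorem t_incl {n : ℕ} (f : MvPolynomial (Fin n) ℂ) (hf : f.IsSymmetric) :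
    evJ f * PP n ∈ Hecke n := by
  obtain ⟨φ, h1, h2⟩ := t_evJ n
  obtain ⟨q, hq⟩ := MvPolynomial.esymmAlgHom_surjective (σ := Fin n) ℂ (n := n) (by simp)
    ⟨f, (MvPolynomial.mem_symmetricSubalgebra f).2 hf⟩
  have h3 : MvPolynomial.aeval (fun i : Fin n => MvPolynomial.esymm (Fin n) ℂ (i + 1)) q = f := by
    rw [← MvPolynomial.esymmAlgHom_apply, hq]
  rw [← h1, ← h3]
  exact inc_all φ h2 q _ inc_PP_mem

end Pool.Agent.H873JM

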