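import Pool.Agent.H873JM.Defs



namespace Pool.Agent.H873JM

open Equiv MonoidAlgebra


theorem ts_tau_apply {n : ℕ} (x : Fin (2 * n)) : tau n x = partner x := rfl

theorem ts_tau_tau {n : ℕ} (x : Fin (2 * n)) : tau n (tau n x) = x := partner_partner x

theorem ts_partner_val {n : ℕ} (x : Fin (2 * n)) :
    (partner x).val = if x.val % 2 = 0 then x.val + 1 else x.val - 1 := by
  unfold partner
  split_ifs <;> rfl

theorem ts_tau_ne {n : ℕ} (x : Fin (2 * n)) : tau n x ≠ x := by
  intro h
  have h1 := congrArg Fin.val h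
  rw [ts_tau_apply, ts_partner_val] at h1
  split_ifs at h1 <;> omega

theorem ts_blk_tau {n : ℕ} (x : Fin (2 * n)) : blk (tau n x) = blk x := by
  apply Fin.ext
  show (partner x).val / 2 = x.val / 2
  rw [ts_partner_val]
  split_ifs <;> omega

theorem ts_blk_ev2 {n : ℕ} (i : Fin n) : blk (ev2 i) = i := by
  apply Fin.ext
  show 2 * i.val / 2 = i.val
  omega

theorem ts_blk_eq {n : ℕ} {x y : Fin (2 * n)} (h : blk x = blk y) : y = x ∨ y = tau n x := by
  have h1 : x.val / 2 = y.val / 2 := congrArg Fin.val h
  by_cases hxy : y.val = x.val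
  · exact Or.inl (Fin.ext hxy)
  · right
    apply Fin.ext
    rw [ts_tau_apply, ts_partner_val]
    split_ifs <;> omega

/-- the block `i` is moved by `τ` -/
def ts_mv {n : ℕ} (τ : Sym2 n) (i : Fin n) : Prop := τ (ev2 i) ≠ tau n (ev2 i)

theorem ts_mv_iff {n : ℕ} {τ : Sym2 n} (h : ∀ x, τ (τ x) = x) (x : Fin (2 * n)) :
    ts_mv τ (blk x) ↔ τ x ≠ tau n x := by
  unfold ts_mv
  have h1 : blk x = blk (ev2 (blk x)) := (ts_blk_ev2 _).symm
  rcases ts_blk_eq h1 with h2 | h2
  · rw [h2]
  · rw [h2]
    refine not_congr ⟨fun h3 => ?_, fun h3 => ?_⟩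
    · rw [ts_tau_tau] at h3
      have h4 := h (tau n x)
      rw [h3] at h4
      exact h4
    · rw [ts_tau_tau, ← h3, h x]

structure TsGood {n : ℕ} (τ : Sym2 n) : Prop where
  inv : ∀ x, τ (τ x) = x
  fpf : ∀ x, τ x ≠ x

structure TsPr {n : ℕ} (τ : Sym2 n) (m : ℕ) (s : List (Fin (2 * n) × List (Fin (2 * n)))) : Prop where
  proper : Proper s
  len : (pts s).length = m
  moved : ∀ x ∈ pts s, ts_mv τ (blk x)
  word : word s * tau n * (word s)⁻¹ = τ

theorem ts_step {n : ℕ} {τ : Sym2 n} (hτ : TsGood τ) {i : Fin n} (hi : ts_mv τ i) :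
    ∃ q : Fin (2 * n), ∃ τ' : Sym2 n, TsGood τ' ∧ τ = swap q (ev2 i) * τ' * (swap q (ev2 i))⁻¹ ∧
      blk q ≠ i ∧ ts_mv τ (blk q) ∧ ¬ ts_mv τ' (blk q) ∧
      ∀ k, k ≠ i → k ≠ blk q → (ts_mv τ' k ↔ ts_mv τ k) := by
  obtain ⟨hinv, hfpf⟩ := hτ
  set c := ev2 i with hc
  set p := τ c with hp
  set q := tau n p with hq
  have hpc : p ≠ c := hfpf c
  have hpt : p ≠ tau n c := hi
  have hbc : blk c = i := ts_blk_ev2 i
  have hbq : blk q = blk p := ts_blk_tau p
  have hbp : blk p ≠ i := by
    intro h
    rw [← hbc] at h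
    rcases ts_blk_eq h.symm with h1 | h1
    · exact hpc h1
    · exact hpt h1
  have hqp : q ≠ p := ts_tau_ne p
  have hqc : q ≠ c := fun h => hbp (by rw [← hbq, h, hbc])
  have htq : tau n q = p := ts_tau_tau p
  have hτp : τ p = c := hinv c
  have hτqc : τ q ≠ c := by
    intro h
    have h1 := hinv q
    rw [h] at h1
    exact hqp h1.symm
  have hτqq : τ q ≠ q := hfpf q
  set g := swap q c with hg
  have hgg : ∀ x, g (g x) = x := by
    intro x
    have h1 : g * g = 1 := swap_mul_self q c
    exact congrArg (fun f : Sym2 n => f x) h1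
  have hginv : g⁻¹ = g := swap_inv q c
  have e1 : ∀ x, (g * τ * g) x = g (τ (g x)) := fun x => rfl
  have hinv' : ∀ x, (g * τ * g) ((g * τ * g) x) = x := by
    intro x
    rw [e1, e1, hgg, hinv, hgg]
  have hfpf' : ∀ x, (g * τ * g) x ≠ x := by
    intro x h
    rw [e1] at h
    have h1 := congrArg g h
    rw [hgg] at h1
    exact hfpf _ h1
  refine ⟨q, g * τ * g, ⟨hinv', hfpf'⟩, ?_, ?_, ?_, ?_, ?_⟩
  · rw [hginv]
    ext x
    show _ = ((g (g (τ (g (g x))))) : Fin (2 * n)).val
    rw [hgg, hgg]
  · rw [hbq]; exact hbp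
  · rw [ts_mv_iff hinv, htq]
    intro h
    have h1 := hinv q
    rw [h, hτp] at h1
    exact hqc h1.symm
  · rw [ts_mv_iff hinv', htq, not_not, e1]
    have h1 : g q = c := swap_apply_left q c
    rw [h1]
    exact swap_apply_of_ne_of_ne hqp.symm hpc
  · intro k hki hkq
    have hbk : blk (ev2 k) = k := ts_blk_ev2 k
    set x := ev2 k with hx
    have hxc : x ≠ c := fun h => hki (by rw [← hbk, h, hbc])
    have hxq : x ≠ q := fun h => hkq (by rw [← hbk, h])
    have hxp : x ≠ p := fun h => hkq (by rw [← hbk, h, hbq])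
    have hgx : g x = x := swap_apply_of_ne_of_ne hxq hxc
    have h1 : ts_mv (g * τ * g) k ↔ g (τ x) ≠ tau n x := by
      unfold ts_mv
      rw [e1, ← hx, hgx]
    have h2 : ts_mv τ k ↔ τ x ≠ tau n x := Iff.rfl
    rw [h1, h2]
    by_cases h3 : τ x = q
    · rw [h3]
      have h4 : g q = c := swap_apply_left q c
      rw [h4]
      refine ⟨fun _ h5 => ?_, fun _ h5 => ?_⟩
      · apply hkq
        rw [h5, ts_blk_tau, hbk]
      · apply hki
        rw [← hbc, h5, ts_blk_tau, hbk]
    · have h4 : τ x ≠ c := by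
        intro h5
        have h6 := hinv x
        rw [h5] at h6
        exact hxp h6.symm
      have h5 : g (τ x) = τ x := swap_apply_of_ne_of_ne h3 h4
      rw [h5]

theorem ts_word_cons {n : ℕ} (t : Fin (2 * n) × List (Fin (2 * n)))
    (r : List (Fin (2 * n) × List (Fin (2 * n)))) :
    word (t :: r) = (t.2.map fun q => swap q t.1).prod * word r := by
  unfold word
  rw [List.map_cons, List.prod_cons]

theorem ts_pts_cons {n : ℕ} (t : Fin (2 * n) × List (Fin (2 * n)))
    (r : List (Fin (2 * n) × List (Fin (2 * n)))) :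
    pts (t :: r) = t.1 :: (t.2 ++ pts r) := by
  unfold pts
  rw [List.flatMap_cons]
  rfl

theorem ts_main {n : ℕ} (m : ℕ) : ∀ τ : Sym2 n, TsGood τ → ∀ S : Finset (Fin n),
    (∀ i, i ∈ S ↔ ts_mv τ i) → S.card = m →
    (∃ s, TsPr τ m s) ∧ ∀ i, ts_mv τ i → ∃ L r, TsPr τ m ((ev2 i, L) :: r) := by
  induction m using Nat.strong_induction_on with
  | _ m ih =>
  intro τ hτ S hS hm
  have hb : ∀ i, ts_mv τ i → ∃ L r, TsPr τ m ((ev2 i, L) :: r) := by
    intro i hi
    obtain ⟨q, τ', hτ', hττ, hqi, hmq, hmq', hk⟩ := ts_step hτ hi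
    have hsub : ∀ k, ts_mv τ' k → ts_mv τ k := by
      intro k hk'
      by_cases h1 : k = i
      · rw [h1]; exact hi
      · by_cases h2 : k = blk q
        · rw [h2]; exact hmq
        · exact (hk k h1 h2).1 hk'
    by_cases hi' : ts_mv τ' i
    · have hS' : ∀ k, k ∈ S.erase (blk q) ↔ ts_mv τ' k := by
        intro k
        rw [Finset.mem_erase, hS]
        constructor
        · rintro ⟨h1, h2⟩
          by_cases h3 : k = i
          · rw [h3]; exact hi'
          · exact (hk k h3 h1).2 h2
        · intro h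
          exact ⟨fun h1 => hmq' (h1 ▸ h), hsub k h⟩
      have hcard : (S.erase (blk q)).card + 1 = m := by
        rw [Finset.card_erase_add_one ((hS _).2 hmq), hm]
      obtain ⟨L, r, hP⟩ := (ih _ (by omega) τ' hτ' _ hS' rfl).2 i hi'
      refine ⟨q :: L, r, ?_, ?_, ?_, ?_⟩
      · have h1 := hP.proper
        have h2 := hP.moved
        unfold Proper at h1 ⊢
        rw [ts_pts_cons] at h1 h2 ⊢
        simp only [List.map_cons, List.cons_append, List.nodup_cons, List.mem_cons,
          not_or] at h1 ⊢
        refine ⟨⟨?_, h1.1⟩, ?_, h1.2⟩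
        · rw [ts_blk_ev2]
          exact hqi.symm
        · intro h3
          obtain ⟨x, hx, hxq⟩ := List.mem_map.1 h3
          have h4 := h2 x (List.mem_cons_of_mem _ hx)
          rw [hxq] at h4
          exact hmq' h4
      · have h1 := hP.len
        rw [ts_pts_cons] at h1 ⊢
        simp only [List.cons_append, List.length_cons] at h1 ⊢
        omega
      · intro x hx
        rw [ts_pts_cons] at hx
        simp only [List.cons_append, List.mem_cons] at hx
        rcases hx with rfl | rfl | hx
        · rw [ts_blk_ev2]; exact hi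
        · exact hmq
        · refine hsub _ (hP.moved x ?_)
          rw [ts_pts_cons]
          exact List.mem_cons_of_mem _ hx
      · have h1 := hP.word
        rw [ts_word_cons] at h1 ⊢
        simp only [List.map_cons, List.prod_cons] at h1 ⊢
        rw [hττ, ← h1]
        group
    · have hS' : ∀ k, k ∈ (S.erase (blk q)).erase i ↔ ts_mv τ' k := by
        intro k
        rw [Finset.mem_erase, Finset.mem_erase, hS]
        constructor
        · rintro ⟨h3, h1, h2⟩
          exact (hk k h3 h1).2 h2
        · intro h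
          exact ⟨fun h1 => hi' (h1 ▸ h), fun h1 => hmq' (h1 ▸ h), hsub k h⟩
      have hcard : ((S.erase (blk q)).erase i).card + 2 = m := by
        have h1 : ((S.erase (blk q)).erase i).card + 1 = (S.erase (blk q)).card :=
          Finset.card_erase_add_one (Finset.mem_erase.2 ⟨hqi.symm, (hS _).2 hi⟩)
        have h2 : (S.erase (blk q)).card + 1 = m := by
          rw [Finset.card_erase_add_one ((hS _).2 hmq), hm]
        omega
      obtain ⟨r, hP⟩ := (ih _ (by omega) τ' hτ' _ hS' rfl).1
      refine ⟨[q], r, ?_, ?_, ?_, ?_⟩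
      · have h1 := hP.proper
        have h2 := hP.moved
        unfold Proper at h1 ⊢
        rw [ts_pts_cons]
        simp only [List.map_cons, List.cons_append, List.nil_append, List.nodup_cons,
          List.mem_cons, not_or] at h1 ⊢
        refine ⟨⟨?_, ?_⟩, ?_, h1⟩
        · rw [ts_blk_ev2]
          exact hqi.symm
        · intro h3
          obtain ⟨x, hx, hxq⟩ := List.mem_map.1 h3
          have h4 := h2 x hx
          rw [hxq, ts_blk_ev2] at h4
          exact hi' h4
        · intro h3
          obtain ⟨x, hx, hxq⟩ := List.mem_map.1 h3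
          have h4 := h2 x hx
          rw [hxq] at h4
          exact hmq' h4
      · have h1 := hP.len
        rw [ts_pts_cons]
        simp only [List.cons_append, List.nil_append, List.length_cons] at h1 ⊢
        omega
      · intro x hx
        rw [ts_pts_cons] at hx
        simp only [List.cons_append, List.nil_append, List.mem_cons] at hx
        rcases hx with rfl | rfl | hx
        · rw [ts_blk_ev2]; exact hi
        · exact hmq
        · exact hsub _ (hP.moved x hx)
      · have h1 := hP.word
        rw [ts_word_cons]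
        simp only [List.map_cons, List.map_nil, List.prod_cons, List.prod_nil] at h1 ⊢
        rw [hττ, ← h1]
        group
  refine ⟨?_, hb⟩
  by_cases h0 : ∃ i, ts_mv τ i
  · obtain ⟨i, hi⟩ := h0
    obtain ⟨L, r, h⟩ := hb i hi
    exact ⟨_, h⟩
  · have hm0 : m = 0 := by
      rw [← hm, Finset.card_eq_zero, Finset.eq_empty_iff_forall_notMem]
      intro i hi
      exact h0 ⟨i, (hS i).1 hi⟩
    refine ⟨[], ?_, ?_, ?_, ?_⟩
    · unfold Proper pts
      simp
    · rw [hm0]; rfl
    · intro x hx
      exact absurd hx (by unfold pts; simp)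
    · have h1 : tau n = τ := by
        ext x
        have h2 : ¬ ts_mv τ (blk x) := fun h => h0 ⟨_, h⟩
        rw [ts_mv_iff hτ.inv, not_not] at h2
        rw [h2]
      show (1 : Sym2 n) * tau n * (1 : Sym2 n)⁻¹ = τ
      rw [h1]
      group

/- TARGET. Every matching is the matching of a proper word of stars.

Proof. `mat σ = σ tau σ⁻¹` is a fixed-point-free involution `τ`. Call a block `i` moved by `τ` if `τ (2i) ≠ 2i+1`
(i.e. `mat σ (ev2 i) ≠ tau n (ev2 i)`; equivalently for any point `p` of the block: `τ p ≠ tau p`).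
Strengthened claim, by strong induction on the number of moved blocks, for all fixed-point-free involutions `τ` (or all
`τ = mat σ`; note `mat (s σ) = s mat σ s⁻¹`): (a) there is a list `s` of stars, proper, with `(pts s).length` = number
of moved blocks, all blocks of `pts s` moved, and `word s * tau * (word s)⁻¹ = τ`; and (b) for every moved block `i` there is
such a list whose first star has centre `ev2 i = 2i`.
 No moved block: `τ = tau`, `s = []`. Otherwise let `i` be a moved block, `p = τ (2i)`, `q = tau p`; the block of `q` is not `i`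
(it is moved). Put `g = swap q (2i)`, `τ' = g τ g`. Then `τ' q = p` so the block of `q` is not moved by `τ'`, and every block
moved by `τ'` is moved by `τ`. If `i` is moved by `τ'`: the moved blocks of `τ'` are exactly those of `τ` except that of `q`;
take by (b) a list `(2i, L) :: r` for `τ'`; then `(2i, q :: L) :: r` works for `τ = g τ' g`. If `i` is not moved by `τ'`
(then the moved blocks of `τ'` are those of `τ` except `i` and the block of `q`): take a list `r` for `τ'` by (a) and use
`(2i, [q]) :: r`. -/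
theorem t_star {n : ℕ} (σ : Sym2 n) :
    ∃ s : List (Fin (2 * n) × List (Fin (2 * n))), Proper s ∧ (pts s).length = msize σ ∧
      mat (word s) = mat σ := by
  classical
  have hinv : ∀ x, mat σ (mat σ x) = x := by
    intro x
    show σ (tau n (σ.symm (σ (tau n (σ.symm x))))) = x
    rw [Equiv.symm_apply_apply, ts_tau_tau, Equiv.apply_symm_apply]
  have hfpf : ∀ x, mat σ x ≠ x := by
    intro x h
    have h1 : σ (tau n (σ.symm x)) = x := h
    have h2 := congrArg σ.symm h1
    rw [Equiv.symm_apply_apply] at h2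
    exact ts_tau_ne _ h2
  obtain ⟨s, hs⟩ := (ts_main (msize σ) (mat σ) ⟨hinv, hfpf⟩
    (Finset.univ.filter fun i : Fin n => mat σ (ev2 i) ≠ tau n (ev2 i)) (fun i => by
      rw [Finset.mem_filter]
      exact ⟨fun h => h.2, fun h => ⟨Finset.mem_univ _, h⟩⟩) (by unfold msize; rfl)).1
  exact ⟨s, hs.proper, hs.len, hs.word⟩

end Pool.Agent.H873JM
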