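import Pool.Agent.H873JM.Defs



namespace Pool.Agent.H873JM

open Equiv MonoidAlgebra


/-! auxiliary lemmas -/

section suppLemmas

variable {G : Type*}

theorem mem_supp {a : MonoidAlgebra ℕ G} {g : G} : g ∈ supp a ↔ a.coeff g ≠ 0 := Iff.rfl

theorem mem_supp_add {a b : MonoidAlgebra ℕ G} {g : G} :
    g ∈ supp (a + b) ↔ g ∈ supp a ∨ g ∈ supp b := by
  rw [mem_supp, mem_supp, mem_supp, MonoidAlgebra.coeff_add, Finsupp.add_apply]
  omega

theorem not_mem_supp_zero {g : G} : ¬ g ∈ supp (0 : MonoidAlgebra ℕ G) := by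
  rw [mem_supp]
  simp

theorem mem_supp_sum {ι : Type*} (s : Finset ι) (f : ι → MonoidAlgebra ℕ G) {g : G} :
    g ∈ supp (∑ i ∈ s, f i) ↔ ∃ i ∈ s, g ∈ supp (f i) := by
  classical
  induction s using Finset.induction_on with
  | empty => simp [not_mem_supp_zero]
  | insert a s ha ih =>
    rw [Finset.sum_insert ha, mem_supp_add, ih]
    simp

variable [Group G]

theorem mem_supp_of {x g : G} : g ∈ supp (MonoidAlgebra.of ℕ G x) ↔ g = x := by
  classical
  rw [mem_supp, MonoidAlgebra.of_apply, MonoidAlgebra.coeff_single, Finsupp.single_apply]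
  constructor
  · intro h
    by_contra h2
    exact h (if_neg (fun h3 => h2 h3.symm))
  · rintro rfl
    simp

theorem mem_supp_one {g : G} : g ∈ supp (1 : MonoidAlgebra ℕ G) ↔ g = 1 := by
  have : (1 : MonoidAlgebra ℕ G) = MonoidAlgebra.of ℕ G 1 := by
    rw [map_one]
  rw [this, mem_supp_of]

theorem mem_supp_mul {a b : MonoidAlgebra ℕ G} {g : G} :
    g ∈ supp (a * b) ↔ ∃ x ∈ supp a, ∃ y ∈ supp b, x * y = g := by
  classical
  rw [mem_supp, MonoidAlgebra.coeff_mul, Finsupp.sum, Ne, Finset.sum_eq_zero_iff]
  push Not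
  constructor
  · rintro ⟨x, hx, h⟩
    rw [Finsupp.sum, Ne, Finset.sum_eq_zero_iff] at h
    push Not at h
    obtain ⟨y, hy, h⟩ := h
    refine ⟨x, Finsupp.mem_support_iff.mp hx, y, Finsupp.mem_support_iff.mp hy, ?_⟩
    by_contra h2
    exact h (if_neg h2)
  · rintro ⟨x, hx, y, hy, h⟩
    refine ⟨x, Finsupp.mem_support_iff.mpr hx, ?_⟩
    rw [Finsupp.sum, Ne, Finset.sum_eq_zero_iff]
    push Not
    refine ⟨y, Finsupp.mem_support_iff.mpr hy, ?_⟩
    rw [if_pos h]
    exact Nat.mul_ne_zero hx hy

end suppLemmas

theorem mem_supp_JN_pow {n : ℕ} (i : Fin n) (r : ℕ) : ∀ g : Sym2 n,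
    g ∈ supp (JN i ^ r) ↔ ∃ L : List (Fin (2 * n)), L.length = r ∧ (∀ q ∈ L, q < ev2 i) ∧
      (L.map fun q => swap q (ev2 i)).prod = g := by
  induction r with
  | zero =>
    intro g
    rw [pow_zero, mem_supp_one]
    constructor
    · rintro rfl
      exact ⟨[], rfl, by simp, by simp⟩
    · rintro ⟨L, h1, _, h3⟩
      rw [List.length_eq_zero_iff] at h1
      subst h1
      simpa using h3.symm
  | succ r ih =>
    intro g
    rw [pow_succ', mem_supp_mul]
    constructor
    · rintro ⟨x, hx, y, hy, rfl⟩
      rw [JN, mem_supp_sum] at hx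
      obtain ⟨q, hq, hx⟩ := hx
      rw [mem_supp_of] at hx
      obtain ⟨L, h1, h2, h3⟩ := (ih y).mp hy
      refine ⟨q :: L, by simp [h1], ?_, ?_⟩
      · intro p hp
        rcases List.mem_cons.mp hp with rfl | hp
        · exact (Finset.mem_filter.mp hq).2
        · exact h2 p hp
      · rw [List.map_cons, List.prod_cons, h3, hx]
    · rintro ⟨L, h1, h2, h3⟩
      rcases L with _ | ⟨q, L⟩
      · simp at h1
      · rw [List.map_cons, List.prod_cons] at h3
        refine ⟨swap q (ev2 i), ?_, (L.map fun q => swap q (ev2 i)).prod, ?_, h3⟩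
        · rw [JN, mem_supp_sum]
          refine ⟨q, ?_, mem_supp_of.mpr rfl⟩
          exact Finset.mem_filter.mpr ⟨Finset.mem_univ _, h2 q (by simp)⟩
        · rw [ih]
          refine ⟨L, by simpa using h1, fun p hp => h2 p (by simp [hp]), rfl⟩

/-- the condition on a star: the centre is one of the points `ev2 i` and the leaves are smaller -/
def Good {n : ℕ} (s : List (Fin (2 * n) × List (Fin (2 * n)))) : Prop :=
  ∀ t ∈ s, (∃ i, t.1 = ev2 i) ∧ ∀ q ∈ t.2, q < t.1

theorem mem_supp_pN {n : ℕ} (ν : List ℕ) : ∀ g : Sym2 n,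
    g ∈ supp (pN (n := n) ν) ↔ ∃ s : List (Fin (2 * n) × List (Fin (2 * n))),
      shape s = ν ∧ Good s ∧ word s = g := by
  induction ν with
  | nil =>
    intro g
    rw [pN, List.map_nil, List.prod_nil, mem_supp_one]
    constructor
    · rintro rfl
      exact ⟨[], rfl, by simp [Good], by simp [word]⟩
    · rintro ⟨s, h1, _, h3⟩
      rw [shape, List.map_eq_nil_iff] at h1
      subst h1
      simpa [word] using h3.symm
  | cons r ν ih =>
    intro g
    have hp : pN (n := n) (r :: ν) = (∑ i : Fin n, JN i ^ r) * pN ν := by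
      simp [pN]
    rw [hp, mem_supp_mul]
    constructor
    · rintro ⟨x, hx, y, hy, rfl⟩
      rw [mem_supp_sum] at hx
      obtain ⟨i, _, hx⟩ := hx
      rw [mem_supp_JN_pow] at hx
      obtain ⟨L, h1, h2, h3⟩ := hx
      obtain ⟨s, h4, h5, h6⟩ := (ih y).mp hy
      refine ⟨(ev2 i, L) :: s, ?_, ?_, ?_⟩
      · simp only [shape, List.map_cons, h1]
        rw [← h4]
        rfl
      · intro t ht
        rcases List.mem_cons.mp ht with rfl | ht
        · exact ⟨⟨i, rfl⟩, h2⟩
        · exact h5 t ht
      · rw [word, List.map_cons, List.prod_cons]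
        rw [← h6, ← h3]
        rfl
    · rintro ⟨s, h1, h2, h3⟩
      rcases s with _ | ⟨⟨c, L⟩, s⟩
      · simp [shape] at h1
      · simp only [shape, List.map_cons, List.cons.injEq] at h1
        obtain ⟨⟨i, hi⟩, h4⟩ := h2 (c, L) (by simp)
        simp only at hi
        subst hi
        refine ⟨(L.map fun q => swap q (ev2 i)).prod, ?_, word s, ?_, ?_⟩
        · rw [mem_supp_sum]
          refine ⟨i, Finset.mem_univ _, ?_⟩
          rw [mem_supp_JN_pow]
          exact ⟨L, h1.1, h4, rfl⟩
        · rw [ih]
          exact ⟨s, h1.2, fun t ht => h2 t (by simp [ht]), rfl⟩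
        · rw [← h3]
          simp [word]

theorem length_pts {n : ℕ} (s : List (Fin (2 * n) × List (Fin (2 * n)))) :
    (pts s).length = (shape s).sum + (shape s).length := by
  induction s with
  | nil => simp [pts, shape]
  | cons t s ih =>
    have h1 : pts (t :: s) = (t.1 :: t.2) ++ pts s := by simp [pts]
    have h2 : shape (t :: s) = t.2.length :: shape s := by simp [shape]
    rw [h1, h2, List.length_append, ih, List.sum_cons, List.length_cons, List.length_cons]
    omega

theorem star_fix {n : ℕ} (c : Fin (2 * n)) (L : List (Fin (2 * n))) (p : Fin (2 * n))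
    (hc : p ≠ c) (hL : p ∉ L) : (L.map fun q => swap q c).prod p = p := by
  induction L with
  | nil => simp
  | cons q L ih =>
    rw [List.map_cons, List.prod_cons, Perm.mul_apply, ih (fun h => hL (by simp [h]))]
    exact swap_apply_of_ne_of_ne (fun h => hL (by simp [h])) hc

theorem word_fix {n : ℕ} (s : List (Fin (2 * n) × List (Fin (2 * n)))) (p : Fin (2 * n))
    (hp : p ∉ pts s) : word s p = p := by
  induction s with
  | nil => simp [word]
  | cons t s ih =>
    have h1 : pts (t :: s) = (t.1 :: t.2) ++ pts s := by simp [pts]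
    have h2 : word (t :: s) = (t.2.map fun q => swap q t.1).prod * word s := by simp [word]
    rw [h1, List.mem_append, not_or] at hp
    rw [h2, Perm.mul_apply, ih hp.2]
    apply star_fix
    · exact fun h => hp.1 (by simp [h])
    · exact fun h => hp.1 (by simp [h])

theorem blk_ev2 {n : ℕ} (i : Fin n) : blk (ev2 i) = i := by
  apply Fin.ext
  simp only [blk, ev2]
  omega

theorem blk_tau_ev2 {n : ℕ} (i : Fin n) : blk (tau n (ev2 i)) = i := by
  apply Fin.ext
  have h : tau n (ev2 i) = partner (ev2 i) := rfl
  rw [h]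
  unfold partner
  have h2 : (ev2 i).val % 2 = 0 := by simp [ev2]
  rw [dif_pos h2]
  simp only [blk, ev2]
  omega

theorem mat_word {n : ℕ} (s : List (Fin (2 * n) × List (Fin (2 * n)))) (i : Fin n)
    (hi : i ∉ (pts s).map blk) : mat (word s) (ev2 i) = tau n (ev2 i) := by
  have h1 : word s (ev2 i) = ev2 i := by
    apply word_fix
    intro h
    exact hi (List.mem_map.mpr ⟨_, h, blk_ev2 i⟩)
  have h2 : word s (tau n (ev2 i)) = tau n (ev2 i) := by
    apply word_fix
    intro h
    exact hi (List.mem_map.mpr ⟨_, h, blk_tau_ev2 i⟩)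
  rw [mat, Perm.mul_apply, Perm.mul_apply, Perm.inv_eq_iff_eq.mpr h1.symm, h2]

theorem msize_word_le {n : ℕ} (s : List (Fin (2 * n) × List (Fin (2 * n)))) :
    msize (word s) ≤ ((pts s).map blk).toFinset.card := by
  apply Finset.card_le_card
  intro i hi
  rw [Finset.mem_filter] at hi
  rw [List.mem_toFinset]
  by_contra h
  exact hi.2 (mat_word s i h)

theorem t_exists_aux {n : ℕ} (ν : List ℕ) : ∀ a b : ℕ, b ≤ n → ν.sum + ν.length + a ≤ b →
    ∃ s : List (Fin (2 * n) × List (Fin (2 * n))), Proper s ∧ shape s = ν ∧ Good s ∧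
      ∀ p ∈ pts s, a ≤ (blk p).val ∧ (blk p).val < b := by
  induction ν with
  | nil =>
    intro a b _ _
    exact ⟨[], by simp [Proper, pts], rfl, by simp [Good], by simp [pts]⟩
  | cons r ν ih =>
    intro a b hb hab
    rw [List.sum_cons, List.length_cons] at hab
    obtain ⟨s, h1, h2, h3, h4⟩ := ih (a + r) (b - 1) (by omega) (by omega)
    have hbn : b - 1 < n := by omega
    have har : ∀ j : Fin r, a + j.val < n := fun j => by omega
    refine ⟨(ev2 ⟨b - 1, hbn⟩, List.ofFn fun j : Fin r => ev2 ⟨a + j.val, har j⟩) :: s,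
      ?_, ?_, ?_, ?_⟩
    · have h5 : pts ((ev2 ⟨b - 1, hbn⟩, List.ofFn fun j : Fin r => ev2 ⟨a + j.val, har j⟩) :: s)
          = (ev2 ⟨b - 1, hbn⟩ :: List.ofFn fun j : Fin r => ev2 ⟨a + j.val, har j⟩) ++ pts s := by
        simp [pts]
      rw [Proper, h5, List.map_append, List.map_cons, List.map_ofFn]
      rw [List.nodup_append]
      refine ⟨?_, h1, ?_⟩
      · rw [List.nodup_cons]
        constructor
        · rw [List.mem_ofFn]
          rintro ⟨j, hj⟩
          simp only [Function.comp, blk_ev2] at hj
          have := congrArg Fin.val hj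
          simp only at this
          have := j.2
          omega
        · rw [List.nodup_ofFn]
          intro j k hjk
          simp only [Function.comp, blk_ev2] at hjk
          have := congrArg Fin.val hjk
          simp only at this
          apply Fin.ext
          omega
      · intro x hx y hy hxy
        obtain ⟨p, hp, rfl⟩ := List.mem_map.mp hy
        obtain ⟨h6, h7⟩ := h4 p hp
        rcases List.mem_cons.mp hx with hx | hx
        · rw [blk_ev2] at hx
          have := congrArg Fin.val (hx.symm.trans hxy)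
          simp only at this
          omega
        · rw [List.mem_ofFn] at hx
          obtain ⟨j, hj⟩ := hx
          simp only [Function.comp, blk_ev2] at hj
          have := congrArg Fin.val (hj.trans hxy)
          simp only at this
          have := j.2
          omega
    · simp only [shape, List.map_cons, List.length_ofFn]
      rw [← h2]
      rfl
    · intro t ht
      rcases List.mem_cons.mp ht with rfl | ht
      · refine ⟨⟨_, rfl⟩, ?_⟩
        intro q hq
        rw [List.mem_ofFn] at hq
        obtain ⟨j, rfl⟩ := hq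
        rw [Fin.lt_def]
        simp only [ev2]
        have := j.2
        omega
      · exact h3 t ht
    · intro p hp
      have h5 : pts ((ev2 ⟨b - 1, hbn⟩, List.ofFn fun j : Fin r => ev2 ⟨a + j.val, har j⟩) :: s)
          = (ev2 ⟨b - 1, hbn⟩ :: List.ofFn fun j : Fin r => ev2 ⟨a + j.val, har j⟩) ++ pts s := by
        simp [pts]
      rw [h5, List.mem_append] at hp
      rcases hp with hp | hp
      · rcases List.mem_cons.mp hp with rfl | hp
        · rw [blk_ev2]
          simp only
          omega
        · rw [List.mem_ofFn] at hp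
          obtain ⟨j, rfl⟩ := hp
          rw [blk_ev2]
          simp only
          have := j.2
          omega
      · obtain ⟨h6, h7⟩ := h4 p hp
        omega

/- TARGETS.  `supp` of a product over `ℕ` is the pointwise product of the `supp`s, `supp` of a sum is the union (no
cancellation in `ℕ`; prove these first), so
`g ∈ supp (pN ν)` iff `g` is a product, over `r ∈ ν` in order, of words `swap q_1 c * … * swap q_r c` with `c = ev2 i`,
all `q_j < c`; i.e. `g = word s` with `shape s = ν` and in each star `(c, L)`: `c` is an `ev2 i`, all elements of `L` are `< c`.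
 t_support: for such `s`, a block `i` which is not a block of a point of `pts s` satisfies `mat g (ev2 i) = tau (ev2 i)`
(`g` fixes both points of the block). Hence `msize g ≤ ((pts s).map blk).toFinset.card ≤ (pts s).length = ν.sum + ν.length`, and
equality forces `((pts s).map blk).Nodup`.
 t_exists: choose the centres of the stars in the top blocks `n-1, n-2, …` (points `ev2`), and all leaves as the points `ev2 0,
ev2 1, …` in order; this is possible since `ν.sum + ν.length ≤ n` (prove by induction on `ν` a version with two bounds `s ≤ t`: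
all blocks in `[s, t)`, if `ν.sum + ν.length ≤ t - s`). -/
theorem t_support {n : ℕ} (ν : List ℕ) (g : Sym2 n) (hg : g ∈ supp (pN (n := n) ν)) :
    msize g ≤ ν.sum + ν.length ∧
      (msize g = ν.sum + ν.length → ∃ s, Proper s ∧ shape s = ν ∧ word s = g) := by
  obtain ⟨s, h1, h2, h3⟩ := (mem_supp_pN ν g).mp hg
  subst h3
  have h4 := msize_word_le s
  have h5 := List.toFinset_card_le ((pts s).map blk)
  have h6 := length_pts s
  rw [h1] at h6
  rw [List.length_map] at h5
  refine ⟨by omega, fun h => ⟨s, ?_, h1, rfl⟩⟩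
  have h7 : ((pts s).map blk).toFinset.card = ((pts s).map blk).length := by
    rw [List.length_map]
    omega
  rw [Proper, ← List.dedup_eq_self]
  rw [List.card_toFinset] at h7
  exact (List.dedup_sublist _).eq_of_length h7

theorem t_exists {n : ℕ} (ν : List ℕ) (h : ν.sum + ν.length ≤ n) :
    ∃ s : List (Fin (2 * n) × List (Fin (2 * n))), Proper s ∧ shape s = ν ∧
      word s ∈ supp (pN (n := n) ν) := by
  obtain ⟨s, h1, h2, h3, _⟩ := t_exists_aux ν 0 n le_rfl (by omega)
  exact ⟨s, h1, h2, (mem_supp_pN ν _).mpr ⟨s, h2, h3, rfl⟩⟩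

end Pool.Agent.H873JM

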