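import Pool.Agent.H873JM.Comm
import Pool.Agent.H873JM.Conj
import Pool.Agent.H873JM.Supp
import Pool.Agent.H873JM.Star
import Pool.Agent.H873JM.Incl

namespace Pool.Agent.H873JM

open Equiv MonoidAlgebra

/-- the map of coefficients `ℕ → ℂ` -/
noncomputable def kap (n : ℕ) : MonoidAlgebra ℕ (Sym2 n) →+* MonoidAlgebra ℂ (Sym2 n) :=
  MonoidAlgebra.mapRingHom (Sym2 n) (Nat.castRingHom ℂ)

theorem kap_JN {n : ℕ} (i : Fin n) : kap n (JN i) = Jodd i := by
  unfold JN Jodd JM
  rw [map_sum]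
  refine Finset.sum_congr rfl fun j _ => ?_
  ext σ
  rw [kap, MonoidAlgebra.coeff_mapRingHom]
  simp only [MonoidAlgebra.of_apply, MonoidAlgebra.coeff_single, Finsupp.single_apply]
  split_ifs <;> simp

theorem kap_pN {n : ℕ} (ν : List ℕ) :
    kap n (pN ν) = (ν.map fun r => ∑ i : Fin n, Jodd i ^ r).prod := by
  unfold pN
  rw [map_list_prod, List.map_map]
  congr 1
  refine List.map_congr_left fun r _ => ?_
  simp only [Function.comp, map_sum, map_pow, kap_JN]

open Classical in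
theorem mul_PP_coeff {n : ℕ} (a : MonoidAlgebra ℂ (Sym2 n)) (σ : Sym2 n) :
    (a * PP n).coeff σ = ∑ h ∈ (Finset.univ.filter fun h => h ∈ Hyp n), a.coeff (σ * h⁻¹) := by
  unfold PP
  rw [Finset.mul_sum, MonoidAlgebra.coeff_sum, Finsupp.finsetSum_apply]
  refine Finset.sum_congr rfl fun h _ => ?_
  rw [MonoidAlgebra.of_apply]
  rw [MonoidAlgebra.coeff_mul_single_eq_coeff_mul (σ * h⁻¹), mul_one]
  intro m' _
  exact ⟨fun e => by rw [← e]; group, fun e => by rw [e]; group⟩

theorem mat_mul_hyp {n : ℕ} (σ h : Sym2 n) (hh : h ∈ Hyp n) : mat (σ * h) = mat σ := by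
  have e : h * tau n = tau n * h := by
    have := Subgroup.mem_centralizer_iff.mp hh (tau n) (Set.mem_singleton _)
    exact this.symm
  unfold mat
  calc σ * h * tau n * (σ * h)⁻¹ = σ * (h * tau n) * h⁻¹ * σ⁻¹ := by group
    _ = σ * (tau n * h) * h⁻¹ * σ⁻¹ := by rw [e]
    _ = σ * tau n * σ⁻¹ := by group

theorem msize_mul_hyp {n : ℕ} (σ h : Sym2 n) (hh : h ∈ Hyp n) : msize (σ * h) = msize σ := by
  unfold msize
  rw [mat_mul_hyp σ h hh]

theorem msize_le {n : ℕ} (σ : Sym2 n) : msize σ ≤ n := by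
  unfold msize
  refine (Finset.card_le_univ _).trans ?_
  simp

theorem hyp_of_mat {n : ℕ} {σ w : Sym2 n} (h : mat w = mat σ) : w⁻¹ * σ ∈ Hyp n := by
  rw [Hyp, Subgroup.mem_centralizer_iff]
  intro t ht
  rw [Set.mem_singleton_iff] at ht
  subst ht
  unfold mat at h
  have h2 : tau n = w⁻¹ * (σ * tau n * σ⁻¹) * w := by rw [← h]; group
  calc tau n * (w⁻¹ * σ) = (w⁻¹ * (σ * tau n * σ⁻¹) * w) * (w⁻¹ * σ) := by rw [← h2]
    _ = w⁻¹ * σ * tau n := by group

theorem length_pts_eq {n : ℕ} (s : List (Fin (2 * n) × List (Fin (2 * n)))) :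
    (pts s).length = (shape s).sum + (shape s).length := by
  induction s with
  | nil => simp [pts, shape]
  | cons t s ih =>
    simp only [pts, shape, List.flatMap_cons, List.length_append, List.length_cons, List.map_cons,
      List.sum_cons] at ih ⊢
    omega

/-- the test elements -/
noncomputable def EE (n : ℕ) (ν : List ℕ) : MonoidAlgebra ℂ (Sym2 n) := kap n (pN ν) * PP n

open Classical in
theorem EE_coeff {n : ℕ} (ν : List ℕ) (σ : Sym2 n) :
    (EE n ν).coeff σ = ((∑ h ∈ (Finset.univ.filter fun h => h ∈ Hyp n),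
      (pN (n := n) ν).coeff (σ * h⁻¹) : ℕ) : ℂ) := by
  unfold EE
  rw [mul_PP_coeff, Nat.cast_sum]
  refine Finset.sum_congr rfl fun h _ => ?_
  rw [kap, MonoidAlgebra.coeff_mapRingHom]
  rfl

open Classical in
theorem EE_ne_zero {n : ℕ} {ν : List ℕ} {σ : Sym2 n} (h : (EE n ν).coeff σ ≠ 0) :
    ∃ k ∈ Hyp n, σ * k⁻¹ ∈ supp (pN (n := n) ν) := by
  rw [EE_coeff, Nat.cast_ne_zero] at h
  obtain ⟨k, hk, hk2⟩ := Finset.exists_ne_zero_of_sum_ne_zero h
  exact ⟨k, (Finset.mem_filter.mp hk).2, hk2⟩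

open Classical in
theorem EE_pos {n : ℕ} {ν : List ℕ} {w : Sym2 n} (h : w ∈ supp (pN (n := n) ν)) :
    (EE n ν).coeff w ≠ 0 := by
  rw [EE_coeff, Nat.cast_ne_zero]
  intro h0
  rw [Finset.sum_eq_zero_iff] at h0
  have := h0 1 (Finset.mem_filter.mpr ⟨Finset.mem_univ _, (Hyp n).one_mem⟩)
  rw [inv_one, mul_one] at this
  exact h this

theorem EE_eq (n : ℕ) (ν : List ℕ) : ∃ f : MvPolynomial (Fin n) ℂ, f.IsSymmetric ∧
    EE n ν = evJ f * PP n := by
  obtain ⟨φ, h1, h2⟩ := t_evJ n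
  refine ⟨(ν.map fun r => MvPolynomial.psum (Fin n) ℂ r).prod, ?_, ?_⟩
  · have : ∀ μ : List ℕ, (μ.map fun r => MvPolynomial.psum (Fin n) ℂ r).prod.IsSymmetric := by
      intro μ
      induction μ with
      | nil => simp
      | cons r μ ih =>
        rw [List.map_cons, List.prod_cons]
        exact (MvPolynomial.psum_isSymmetric _ _ _).mul ih
    exact this ν
  · rw [EE, kap_pN, ← h1, map_list_prod, List.map_map]
    congr 3
    funext r
    simp only [Function.comp, MvPolynomial.psum, map_sum, map_pow, h2]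

theorem EE_mem (n : ℕ) (ν : List ℕ) : EE n ν ∈ Hecke n := by
  obtain ⟨f, h1, h2⟩ := EE_eq n ν
  rw [h2]
  exact t_incl f h1

theorem ww_sub {n : ℕ} {B E : MonoidAlgebra ℂ (Sym2 n)} (c : ℂ)
    (h1 : ∃ f : MvPolynomial (Fin n) ℂ, f.IsSymmetric ∧ B - c • E = evJ f * PP n)
    (h2 : ∃ f : MvPolynomial (Fin n) ℂ, f.IsSymmetric ∧ E = evJ f * PP n) :
    ∃ f : MvPolynomial (Fin n) ℂ, f.IsSymmetric ∧ B = evJ f * PP n := by
  obtain ⟨φ, hφ, -⟩ := t_evJ n
  obtain ⟨f, hf, e1⟩ := h1
  obtain ⟨g, hg, e2⟩ := h2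
  refine ⟨f + c • g, hf.add (hg.smul c), ?_⟩
  rw [← hφ, map_add, map_smul, add_mul, hφ, hφ, smul_mul_assoc, ← e1, ← e2]
  abel

open Classical in
theorem main_ind {n : ℕ} (s : ℕ) : ∀ (N : ℕ) (B : MonoidAlgebra ℂ (Sym2 n)), B ∈ Hecke n →
    (∀ σ, B.coeff σ ≠ 0 → msize σ ≤ s) →
    (Finset.univ.filter fun σ : Sym2 n => B.coeff σ ≠ 0 ∧ msize σ = s).card ≤ N →
    ∃ f : MvPolynomial (Fin n) ℂ, f.IsSymmetric ∧ B = evJ f * PP n := by
  induction s using Nat.strong_induction_on with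
  | _ s IHs =>
  intro N
  induction N with
  | zero =>
    intro B hB h1 h2
    have h3 : ∀ σ : Sym2 n, B.coeff σ ≠ 0 → msize σ ≠ s := by
      intro σ hσ he
      have := Finset.card_eq_zero.mp (Nat.le_zero.mp h2)
      have h4 : σ ∈ (Finset.univ.filter fun σ : Sym2 n => B.coeff σ ≠ 0 ∧ msize σ = s) := by
        simp [hσ, he]
      rw [this] at h4
      simp at h4
    rcases Nat.eq_zero_or_pos s with hs | hs
    · refine ⟨0, MvPolynomial.IsSymmetric.zero, ?_⟩
      have : B = 0 := by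
        ext σ
        by_contra hne
        have hne' : B.coeff σ ≠ 0 := by simpa using hne
        have := h1 σ hne'
        exact h3 σ hne' (by omega)
      rw [this]
      simp [evJ]
    · refine IHs (s - 1) (by omega) _ B hB (fun σ hσ => ?_) le_rfl
      have := h1 σ hσ
      have := h3 σ hσ
      omega
  | succ N IH =>
    intro B hB h1 h2
    by_cases hex : ∃ σ : Sym2 n, B.coeff σ ≠ 0 ∧ msize σ = s
    · obtain ⟨σ0, hσ0, hs0⟩ := hex
      obtain ⟨s0, hp0, hl0, hm0⟩ := t_star σ0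
      set ν := shape s0 with hν
      have hlen : ν.sum + ν.length = s := by rw [hν, ← length_pts_eq, hl0, hs0]
      obtain ⟨s1, hp1, hsh1, hw1⟩ := t_exists (n := n) ν (by
        rw [hlen, ← hs0]; exact msize_le σ0)
      obtain ⟨h, hh, hconj⟩ := t_conj s1 s0 hp1 hp0 (by rw [hsh1])
      have hk : (word s0)⁻¹ * σ0 ∈ Hyp n := hyp_of_mat hm0
      have hE := EE_mem n ν
      -- general invariance: σ with σ k⁻¹ = word of a proper list of shape ν
      have key : ∀ (σ : Sym2 n) (s2 : List (Fin (2 * n) × List (Fin (2 * n)))) (k : Sym2 n),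
          k ∈ Hyp n → Proper s2 → shape s2 = ν → word s2 = σ * k⁻¹ →
          ∀ A ∈ Hecke n, A.coeff σ = A.coeff σ0 := by
        intro σ s2 k hk2 hp2 hsh2 hw2 A hA
        obtain ⟨g, hg, hgc⟩ := t_conj s0 s2 hp0 hp2 (by rw [hsh2])
        have e : σ = g * σ0 * (((word s0)⁻¹ * σ0)⁻¹ * g⁻¹ * k) := by
          have : σ = word s2 * k := by rw [hw2]; group
          rw [this, hgc]
          group
        rw [e]
        exact hA g hg _ ((Hyp n).mul_mem ((Hyp n).mul_mem ((Hyp n).inv_mem hk)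
          ((Hyp n).inv_mem hg)) hk2) σ0
      have hE0 : (EE n ν).coeff σ0 ≠ 0 := by
        have := key (word s1) s1 1 (Hyp n).one_mem hp1 hsh1 (by group) _ hE
        rw [← this]
        exact EE_pos hw1
      refine ww_sub (E := EE n ν) (B.coeff σ0 / (EE n ν).coeff σ0) (IH _ ?_ ?_ ?_) (EE_eq n ν)
      · exact (Hecke n).sub_mem hB ((Hecke n).smul_mem _ hE)
      · intro σ hσ
        by_cases hB0 : B.coeff σ = 0
        · have hE1 : (EE n ν).coeff σ ≠ 0 := by
            intro h0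
            apply hσ
            simp [hB0, h0]
          obtain ⟨k, hk2, hk3⟩ := EE_ne_zero hE1
          have := (t_support ν _ hk3).1
          rw [msize_mul_hyp σ k⁻¹ ((Hyp n).inv_mem hk2), hlen] at this
          exact this
        · exact h1 σ hB0
      · have hsub : (Finset.univ.filter fun σ : Sym2 n =>
            (B - (B.coeff σ0 / (EE n ν).coeff σ0) • EE n ν).coeff σ ≠ 0 ∧ msize σ = s) ⊆
            (Finset.univ.filter fun σ : Sym2 n => B.coeff σ ≠ 0 ∧ msize σ = s).erase σ0 := by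
          intro σ hσ
          simp only [Finset.mem_filter, Finset.mem_univ, true_and, Finset.mem_erase] at hσ ⊢
          obtain ⟨hσ1, hσ2⟩ := hσ
          have hE1 : (EE n ν).coeff σ = 0 := by
            by_contra hne
            obtain ⟨k, hk2, hk3⟩ := EE_ne_zero hne
            obtain ⟨s2, hp2, hsh2, hw2⟩ := (t_support ν _ hk3).2 (by
              rw [msize_mul_hyp σ k⁻¹ ((Hyp n).inv_mem hk2), hlen, hσ2])
            have e1 := key σ s2 k hk2 hp2 hsh2 hw2 _ hE
            have e2 := key σ s2 k hk2 hp2 hsh2 hw2 _ hB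
            apply hσ1
            rw [MonoidAlgebra.coeff_sub, Finsupp.sub_apply, MonoidAlgebra.coeff_smul,
              Finsupp.smul_apply, e1, e2, smul_eq_mul, div_mul_cancel₀ _ hE0, sub_self]
          have hB1 : B.coeff σ ≠ 0 := by
            intro h0
            apply hσ1
            simp [hE1, h0]
          refine ⟨?_, hB1, hσ2⟩
          rintro rfl
          exact hE0 hE1
        have hmem : σ0 ∈ (Finset.univ.filter fun σ : Sym2 n => B.coeff σ ≠ 0 ∧ msize σ = s) := by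
          simp [hσ0, hs0]
        have h5 := Finset.card_le_card hsub
        rw [Finset.card_erase_of_mem hmem] at h5
        omega
    · refine IH B hB h1 ?_
      rw [Finset.card_eq_zero.mpr]
      · exact Nat.zero_le _
      · rw [Finset.filter_eq_empty_iff]
        intro σ _ hσ
        exact hex ⟨σ, hσ⟩

theorem t_final' {n : ℕ} (B : MonoidAlgebra ℂ (Sym2 n)) (hB : B ∈ Hecke n) :
    ∃ f : MvPolynomial (Fin n) ℂ, f.IsSymmetric ∧ B = evJ f * PP n := by
  classical
  exact main_ind n _ B hB (fun σ _ => msize_le σ) le_rfl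

end Pool.Agent.H873JM
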