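import Pool.Agent.H873JM.Defs



namespace Pool.Agent.H873JM

open Equiv MonoidAlgebra


/-- symmetric functions: formal power series in the variables `x_0, x_1, …` of bounded degree
which are invariant under all permutations of the variables -/
def IsSymFun (F : MvPowerSeries ℕ ℂ) : Prop :=
  (∃ D : ℕ, ∀ d : ℕ →₀ ℕ, D < d.degree → MvPowerSeries.coeff d F = 0) ∧
    ∀ (e : Perm ℕ) (d : ℕ →₀ ℕ), MvPowerSeries.coeff (d.mapDomain e) F = MvPowerSeries.coeff d F

theorem jmh_ext {n : ℕ} (e : Perm (Fin n)) : ∃ e' : Perm ℕ, ∀ i : Fin n, e' i.val = (e i).val := by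
  obtain ⟨h, hh⟩ := Equiv.Perm.exists_extending_pair (fun i : Fin n => i.val)
    (fun i : Fin n => (e i).val) Fin.val_injective (Fin.val_injective.comp e.injective)
  exact ⟨h, fun i => hh i⟩

theorem jmh_map {n : ℕ} (e : Perm (Fin n)) (e' : Perm ℕ) (h : ∀ i : Fin n, e' i.val = (e i).val)
    (d : Fin n →₀ ℕ) :
    (d.mapDomain e).mapDomain Fin.val = (d.mapDomain Fin.val).mapDomain e' := by
  rw [← Finsupp.mapDomain_comp, ← Finsupp.mapDomain_comp]
  congr 1
  funext i
  exact (h i).symm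

theorem jmh_mul (e e1 : Perm ℕ) (v : ℕ →₀ ℕ) :
    v.mapDomain (e * e1 : Perm ℕ) = (v.mapDomain e1).mapDomain e := by
  rw [← Finsupp.mapDomain_comp]
  rfl

theorem jmh_cancel (e : Perm ℕ) (v : ℕ →₀ ℕ) : (v.mapDomain e).mapDomain (e⁻¹ : Perm ℕ) = v := by
  rw [← jmh_mul, inv_mul_cancel]
  have : (⇑(1 : Perm ℕ)) = id := rfl
  rw [this, Finsupp.mapDomain_id]

theorem jmh_val {n : ℕ} (d : Fin n →₀ ℕ) (i : Fin n) : d.mapDomain Fin.val i.val = d i :=
  Finsupp.mapDomain_apply Fin.val_injective d i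

theorem jmh_range {n : ℕ} (d : Fin n →₀ ℕ) (x : ℕ) (h : d.mapDomain Fin.val x ≠ 0) :
    ∃ i : Fin n, i.val = x := by
  by_contra hno
  apply h
  refine Finsupp.mapDomain_of_notMem_range d x ?_
  rintro ⟨i, hi⟩
  exact hno ⟨i, hi⟩

/-- two exponents which are related by a permutation of the natural numbers are related by a
permutation of `Fin n` -/
theorem jmh_perm {n : ℕ} {d1 d2 : Fin n →₀ ℕ} {e : Perm ℕ}
    (h : (d1.mapDomain Fin.val).mapDomain e = d2.mapDomain Fin.val) :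
    ∃ e' : Perm (Fin n), d1.mapDomain e' = d2 := by
  classical
  have h1 : ∀ x, d2.mapDomain Fin.val (e x) = d1.mapDomain Fin.val x := by
    intro x
    rw [← h, Finsupp.mapDomain_apply e.injective]
  have h2 : ∀ i : Fin n, d1 i ≠ 0 → ∃ j : Fin n, j.val = e i.val ∧ d2 j = d1 i := by
    intro i hi
    have h3 := h1 i.val
    rw [jmh_val] at h3
    obtain ⟨j, hj⟩ := jmh_range d2 (e i.val) (by rw [h3]; exact hi)
    refine ⟨j, hj, ?_⟩
    rw [← jmh_val d2 j, hj, h3]
  have h2' : ∀ j : Fin n, d2 j ≠ 0 → ∃ i : Fin n, e i.val = j.val ∧ d1 i = d2 j := by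
    intro j hj
    have h3 := h1 (e.symm j.val)
    rw [Equiv.apply_symm_apply, jmh_val] at h3
    obtain ⟨i, hi⟩ := jmh_range d1 (e.symm j.val) (by rw [← h3]; exact hj)
    refine ⟨i, by rw [hi, Equiv.apply_symm_apply], ?_⟩
    rw [← jmh_val d1 i, hi, h3]
  choose g hg1 hg2 using h2
  let G : {i // d1 i ≠ 0} → {j // d2 j ≠ 0} := fun i => ⟨g i.1 i.2, by rw [hg2]; exact i.2⟩
  have hG : Function.Bijective G := by
    constructor
    · intro i i' hii
      have h3 : g i.1 i.2 = g i'.1 i'.2 := congrArg Subtype.val hii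
      have h4 : e i.1.val = e i'.1.val := by rw [← hg1 i.1 i.2, ← hg1 i'.1 i'.2, h3]
      exact Subtype.ext (Fin.ext (e.injective h4))
    · rintro ⟨j, hj⟩
      obtain ⟨i, hi, hi'⟩ := h2' j hj
      have hi0 : d1 i ≠ 0 := by rw [hi']; exact hj
      refine ⟨⟨i, hi0⟩, Subtype.ext (Fin.ext ?_)⟩
      rw [← hi]
      exact hg1 i hi0
  let E : {i // d1 i ≠ 0} ≃ {j // d2 j ≠ 0} := Equiv.ofBijective G hG
  refine ⟨E.extendSubtype, ?_⟩
  have h5 : ∀ i, d2 (E.extendSubtype i) = d1 i := by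
    intro i
    by_cases hi : d1 i ≠ 0
    · rw [Equiv.extendSubtype_apply_of_mem E i hi]
      exact hg2 i hi
    · have h6 := Equiv.extendSubtype_not_mem E i hi
      push Not at hi h6
      rw [hi, h6]
  ext j
  obtain ⟨i, rfl⟩ := E.extendSubtype.surjective j
  rw [Finsupp.mapDomain_apply E.extendSubtype.injective, h5]

theorem jmh_coeff {n : ℕ} {f : MvPolynomial (Fin n) ℂ} (hf : f.IsSymmetric) (e : Perm (Fin n))
    (d : Fin n →₀ ℕ) : f.coeff (d.mapDomain e) = f.coeff d := by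
  have h1 := MvPolynomial.coeff_rename_mapDomain e e.injective f d
  rwa [hf e] at h1

/-- the condition in the definition of the lift -/
def jmh_C (n : ℕ) (d : ℕ →₀ ℕ) (d' : Fin n →₀ ℕ) : Prop :=
  ∃ e : Perm ℕ, d = (d'.mapDomain Fin.val).mapDomain e

open Classical in
/-- the lift of a symmetric polynomial -/
noncomputable def jmh_lift {n : ℕ} (f : MvPolynomial (Fin n) ℂ) : MvPowerSeries ℕ ℂ :=
  fun d => if h : ∃ d' : Fin n →₀ ℕ, jmh_C n d d' then f.coeff h.choose else 0

theorem jmh_lift_eq {n : ℕ} {f : MvPolynomial (Fin n) ℂ} (hf : f.IsSymmetric) {d : ℕ →₀ ℕ}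
    {d' : Fin n →₀ ℕ} (h : jmh_C n d d') : MvPowerSeries.coeff d (jmh_lift f) = f.coeff d' := by
  have hex : ∃ d' : Fin n →₀ ℕ, jmh_C n d d' := ⟨d', h⟩
  have h1 : MvPowerSeries.coeff d (jmh_lift f) = f.coeff hex.choose := by
    change jmh_lift f d = _
    unfold jmh_lift
    rw [dif_pos hex]
  rw [h1]
  obtain ⟨e, he⟩ := hex.choose_spec
  obtain ⟨e1, he1⟩ := h
  have h2 : (d'.mapDomain Fin.val).mapDomain (e⁻¹ * e1 : Perm ℕ) =
      hex.choose.mapDomain Fin.val := by
    rw [jmh_mul, ← he1]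
    conv_lhs => rw [he]
    exact jmh_cancel e _
  obtain ⟨e', he'⟩ := jmh_perm h2
  rw [← he']
  exact jmh_coeff hf e' d'

theorem jmh_lift_zero {n : ℕ} (f : MvPolynomial (Fin n) ℂ) {d : ℕ →₀ ℕ}
    (h : ¬ ∃ d' : Fin n →₀ ℕ, jmh_C n d d') : MvPowerSeries.coeff d (jmh_lift f) = 0 := by
  change jmh_lift f d = _
  unfold jmh_lift
  rw [dif_neg h]

/- TARGETS. Restriction of symmetric functions to `n` variables: symmetric polynomials, and all of them are obtained.
 t_restrict: `f = ∑_{d, degree ≤ D} coeff (d.mapDomain val) F • monomial d 1` (the set of `d : Fin n →₀ ℕ` of degree `≤ D` is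
finite). Symmetry: a permutation of `Fin n` extends to one of `ℕ`.
 t_lift: let `F` have the coefficient at `d : ℕ →₀ ℕ` equal to the common value of `f.coeff d'` for `d' : Fin n →₀ ℕ` whose
multiset of nonzero values is that of `d`, if there is such a `d'` (i.e. the support of `d` has at most `n` elements), and `0`
otherwise. Equivalently: `coeff d F = f.coeff d'` if there are `e : Perm ℕ`, `d'` with `d = (d'.mapDomain val).mapDomain e`, else
`0`; well defined: if `(d'.mapDomain val)` and `(d''.mapDomain val)` are related by a permutation of `ℕ` then `d'`, `d''` are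
related by a permutation of `Fin n` (same number of points with each value, including the value `0`), and `f` is symmetric. -/
theorem t_restrict {n : ℕ} (F : MvPowerSeries ℕ ℂ) (hF : IsSymFun F) :
    ∃ f : MvPolynomial (Fin n) ℂ, f.IsSymmetric ∧
      ∀ d : Fin n →₀ ℕ, f.coeff d = MvPowerSeries.coeff (d.mapDomain Fin.val) F := by
  classical
  obtain ⟨⟨D, hD⟩, hsym⟩ := hF
  have hfin : {d : Fin n →₀ ℕ | d.degree ≤ D}.Finite := Finsupp.finite_of_degree_le D
  have key : ∀ d : Fin n →₀ ℕ, (∑ d' ∈ hfin.toFinset, MvPolynomial.monomial d'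
      (MvPowerSeries.coeff (d'.mapDomain Fin.val) F)).coeff d =
      MvPowerSeries.coeff (d.mapDomain Fin.val) F := by
    intro d
    rw [MvPolynomial.coeff_sum]
    simp only [MvPolynomial.coeff_monomial]
    rw [Finset.sum_ite_eq']
    by_cases hd : d ∈ hfin.toFinset
    · rw [if_pos hd]
    · rw [if_neg hd]
      symm
      apply hD
      rw [Finsupp.degree_mapDomain]
      simpa using hd
  refine ⟨_, ?_, key⟩
  intro e
  ext d
  obtain ⟨d', rfl⟩ : ∃ d' : Fin n →₀ ℕ, d = d'.mapDomain e := by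
    refine ⟨d.mapDomain e.symm, ?_⟩
    rw [← Finsupp.mapDomain_comp]
    have : (⇑e ∘ ⇑e.symm) = id := by
      funext x
      simp
    rw [this, Finsupp.mapDomain_id]
  rw [MvPolynomial.coeff_rename_mapDomain _ e.injective, key, key]
  obtain ⟨e', he'⟩ := jmh_ext e
  rw [jmh_map e e' he', hsym]

theorem t_lift {n : ℕ} (f : MvPolynomial (Fin n) ℂ) (hf : f.IsSymmetric) :
    ∃ F : MvPowerSeries ℕ ℂ, IsSymFun F ∧
      ∀ d : Fin n →₀ ℕ, f.coeff d = MvPowerSeries.coeff (d.mapDomain Fin.val) F := by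
  refine ⟨jmh_lift f, ⟨⟨f.totalDegree, ?_⟩, ?_⟩, ?_⟩
  · intro d hd
    by_cases h : ∃ d' : Fin n →₀ ℕ, jmh_C n d d'
    · obtain ⟨d', h'⟩ := h
      rw [jmh_lift_eq hf h']
      apply MvPolynomial.coeff_eq_zero_of_totalDegree_lt
      obtain ⟨e, he⟩ := h'
      rw [he, Finsupp.degree_mapDomain, Finsupp.degree_mapDomain] at hd
      exact hd
    · exact jmh_lift_zero f h
  · intro e d
    by_cases h : ∃ d' : Fin n →₀ ℕ, jmh_C n d d'
    · obtain ⟨d', h'⟩ := h
      have h'' : jmh_C n (d.mapDomain e) d' := by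
        obtain ⟨e1, he1⟩ := h'
        refine ⟨e * e1, ?_⟩
        rw [he1, ← Finsupp.mapDomain_comp]
        rfl
      rw [jmh_lift_eq hf h', jmh_lift_eq hf h'']
    · rw [jmh_lift_zero f h, jmh_lift_zero f]
      rintro ⟨d', e1, he1⟩
      apply h
      refine ⟨d', e⁻¹ * e1, ?_⟩
      rw [jmh_mul, ← he1, jmh_cancel]
  · intro d
    refine (jmh_lift_eq hf ⟨1, ?_⟩).symm
    have : (⇑(1 : Perm ℕ)) = id := rfl
    rw [this, Finsupp.mapDomain_id]

end Pool.Agent.H873JM
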